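import Pool.Agent.MP_735563_an.H20.CntB

set_option autoImplicit false

/-! The main counting estimate and the independence of product labels. -/

namespace Pool.Agent.MP_735563_an.H2.Cnt

open Finset

section

variable {V Ω : Type} [Fintype Ω] {n L m : ℕ} {st : V → Fin 4 → Option V}
  {lab : Ω → V → Lab n L m} {U : V → Prop}

theorem sum_half_le (K : ℕ) {a : ℝ} (ha : 0 ≤ a) (f : ℕ → ℝ) (hf : ∀ k, f k ≤ a * (1 / 2) ^ k) :
    ∑ k ∈ range K, f k ≤ 2 * a := by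
  calc ∑ k ∈ range K, f k ≤ ∑ k ∈ range K, a * (1 / 2) ^ k := sum_le_sum fun k _ => hf k
    _ = a * ∑ k ∈ range K, (1 / 2 : ℝ) ^ k := by rw [mul_sum]
    _ ≤ a * 2 := mul_le_mul_of_nonneg_left (sum_geometric_two_le K) ha
    _ = 2 * a := by ring

open Classical in
theorem pr_cyc (hs : ∀ y z i, st y i = some z → st z (i + 2) = some y) (hI : Indep lab U)
    {k₂ : ℕ} {v : V} {Λ θ : ℝ} (hΛ : 0 ≤ Λ)
    (hM : ∀ k ≤ k₂, ∀ z, ((univ.filter fun w : Fin (k * m) → Fin 4 =>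
      run st v (List.ofFn w) = some z).card : ℝ) ≤ Λ ^ k)
    (hU : ∀ k ≤ k₂, ∀ (D : Dt L m k) x, Sk st D x → x 0 = v → ∀ t ≤ k, U (x t))
    (hθ : θ = 2 * L * Λ * (1 / (n : ℝ) * (1 / 4 ^ m))) (h2 : θ ≤ 1 / 2) :
    pr (fun ω => Cyc (Raw st (lab ω)) k₂ v) ≤ 8 * θ ^ 2 := by
  have h0 : 0 ≤ θ := by rw [hθ]; positivity
  refine (pr_union (range (k₂ + 1)) (fun k ω => 2 ≤ k ∧ ∃ x e, Chain (Raw st (lab ω)) k x e ∧
    x 0 = v ∧ x k ∈ ({v} : Finset V)) (fun k => 4 * θ ^ 2 * (1 / 2) ^ k) ?_ ?_).trans ?_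
  · rintro ω ⟨k, x, e, h1, h3, h4, h5, h6⟩
    exact ⟨k, mem_range.2 (by omega), h1, x, e, h4, h5, by simpa using h6⟩
  · intro k hk
    have hk' : k ≤ k₂ := by simpa [Nat.lt_succ_iff] using hk
    refine pr_of_ex (by positivity) fun _ ⟨h1, _⟩ => ?_
    refine (pr_mono fun ω hω => hω.2).trans ((pr_chain hs hI (hM k hk') (hU k hk') {v}).trans ?_)
    obtain ⟨j, rfl⟩ := Nat.exists_eq_add_of_le h1
    rw [← hθ, card_singleton, Nat.cast_one, one_mul, pow_add, pow_add]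
    have := pow_le_pow_left₀ h0 h2 j
    nlinarith [sq_nonneg θ]
  · have := sum_half_le (k₂ + 1) (a := 4 * θ ^ 2) (by positivity) _ fun _ => le_rfl
    linarith

open Classical in
theorem pr_bad (hs : ∀ y z i, st y i = some z → st z (i + 2) = some y) (hI : Indep lab U)
    {k₁ k₂ B : ℕ} {N : ℕ → ℕ} {v : V} {Λ θ η : ℝ} (hΛ : 0 ≤ Λ) (hη : 0 ≤ η)
    {Tg : ℕ → V → V → Prop} {Cl : V → V → Prop}
    (hM : ∀ k ≤ k₂, ∀ z, ((univ.filter fun w : Fin (k * m) → Fin 4 =>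
      run st v (List.ofFn w) = some z).card : ℝ) ≤ Λ ^ k)
    (hU : ∀ k ≤ k₂, ∀ (D : Dt L m k) x, Sk st D x → x 0 = v → ∀ t ≤ k, U (x t))
    (hU' : ∀ k ≤ k₂, ∀ (D : Dt L m k) x, Sk st D x → Cl v (x 0) → ∀ t ≤ k, U (x t))
    (hB : ∀ y, ∃ T : Finset V, T.card ≤ B ∧ ∀ z, Cl y z → z ∈ T)
    (hN : ∀ k, ∃ T : Finset V, T.card ≤ N k ∧ ∀ z, Tg k v z → z ∈ T)
    (hN' : ∀ k, (N k : ℝ) ≤ η * 12 ^ k) (hB' : (B : ℝ) ^ 2 ≤ η * 2 ^ k₁)
    (hθ : θ = 2 * L * Λ * (1 / (n : ℝ) * (1 / 4 ^ m))) (h2 : θ ≤ 1 / 48)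
    (h6 : 2 * L * (1 / (n : ℝ)) ≤ 6) :
    pr (fun ω => Bad (Raw st (lab ω)) Tg Cl k₁ k₂ v) ≤ 4 * η := by
  have h0 : 0 ≤ θ := by rw [hθ]; positivity
  refine (pr_union (range (k₂ + 1)) (fun k ω =>
    (∃ x e, Chain (Raw st (lab ω)) k x e ∧ x 0 = v ∧ Tg k v (x k)) ∨
    (k₁ ≤ k ∧ ∃ k' ∈ range (k + 1), ∃ x e x' e', Chain (Raw st (lab ω)) k x e ∧ x 0 = v ∧
      Chain (Raw st (lab ω)) k' x' e' ∧ Cl v (x' 0) ∧ Cl (x' k') (x k) ∧
      ∀ t ≤ k, ∀ t' ≤ k', x t ≠ x' t')) (fun k => 2 * η * (1 / 2) ^ k) ?_ ?_).trans ?_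
  · rintro ω ⟨k, x, e, h1, h3, h4, h5 | ⟨h5, k', x', e', h7, h8⟩⟩
    · exact ⟨k, mem_range.2 (by omega), Or.inl ⟨x, e, h3, h4, h5⟩⟩
    · exact ⟨k, mem_range.2 (by omega), Or.inr ⟨h5, k', mem_range.2 (by omega), x, e, x', e',
        h3, h4, h8⟩⟩
  · intro k hk
    have hk' : k ≤ k₂ := by simpa [Nat.lt_succ_iff] using hk
    have e1 : (12 : ℝ) ^ k * θ ^ k ≤ (1 / 2) ^ k := by
      rw [← mul_pow]; exact pow_le_pow_left₀ (by positivity) (by linarith) k
    have e2 : (2 : ℝ) ^ k * (2 ^ k * 6 ^ k) * θ ^ k ≤ (1 / 2) ^ k := by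
      rw [← mul_pow, ← mul_pow, ← mul_pow]
      exact pow_le_pow_left₀ (by positivity) (by linarith) k
    refine (pr_or _ _).trans ?_
    have p1 : pr (fun ω => ∃ x e, Chain (Raw st (lab ω)) k x e ∧ x 0 = v ∧ Tg k v (x k)) ≤
        η * (1 / 2) ^ k := by
      obtain ⟨T, hT, hT1⟩ := hN k
      refine (pr_mono fun ω ⟨x, e, g1, g2, g3⟩ => ⟨x, e, g1, g2, hT1 _ g3⟩).trans
        ((pr_chain hs hI (hM k hk') (hU k hk') T).trans ?_)
      rw [← hθ]
      have g : (T.card : ℝ) ≤ η * 12 ^ k := le_trans (by exact_mod_cast hT) (hN' k)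
      calc (T.card : ℝ) * θ ^ k ≤ η * 12 ^ k * θ ^ k :=
            mul_le_mul_of_nonneg_right g (by positivity)
        _ = η * (12 ^ k * θ ^ k) := by ring
        _ ≤ _ := mul_le_mul_of_nonneg_left e1 hη
    have p2 : pr (fun ω => k₁ ≤ k ∧ ∃ k' ∈ range (k + 1), ∃ x e x' e',
        Chain (Raw st (lab ω)) k x e ∧ x 0 = v ∧ Chain (Raw st (lab ω)) k' x' e' ∧
        Cl v (x' 0) ∧ Cl (x' k') (x k) ∧ ∀ t ≤ k, ∀ t' ≤ k', x t ≠ x' t') ≤ η * (1 / 2) ^ k := by
      refine pr_of_ex (by positivity) fun _ ⟨g1, _⟩ => ?_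
      refine (pr_union_const (range (k + 1)) _ (a := (B : ℝ) ^ 2 * 6 ^ k * θ ^ k)
        (fun ω hω => hω.2) fun k' hk2 => ?_).trans ?_
      · have hk3 : k' ≤ k := by simpa [Nat.lt_succ_iff] using hk2
        refine (pr_two hs hI hΛ (hM k hk') (hU k hk') (hU' k' (hk3.trans hk')) hB).trans ?_
        rw [← hθ]
        refine mul_le_mul_of_nonneg_right (mul_le_mul_of_nonneg_left ?_ (by positivity))
          (by positivity)
        exact (pow_le_pow_left₀ (by positivity) h6 k').trans (pow_le_pow_right₀ (by norm_num) hk3)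
      · have g2 : ((range (k + 1)).card : ℝ) ≤ 2 ^ k := by
          rw [card_range]; exact_mod_cast Nat.lt_two_pow_self
        have g3 : (B : ℝ) ^ 2 ≤ η * 2 ^ k :=
          hB'.trans (mul_le_mul_of_nonneg_left (pow_le_pow_right₀ (by norm_num) g1) hη)
        calc ((range (k + 1)).card : ℝ) * ((B : ℝ) ^ 2 * 6 ^ k * θ ^ k)
            ≤ 2 ^ k * (η * 2 ^ k * 6 ^ k * θ ^ k) := by gcongr
          _ = η * (2 ^ k * (2 ^ k * 6 ^ k) * θ ^ k) := by ring
          _ ≤ _ := mul_le_mul_of_nonneg_left e2 hη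
    linarith
  · have := sum_half_le (k₂ + 1) (a := 2 * η) (by positivity) _ fun _ => le_rfl
    linarith

end

theorem cnt : ∃ n L m : ℕ, 0 < n ∧ ∃ η : ℝ, 0 < η ∧ CntStmt n L m η := by
  classical
  obtain ⟨m, m', hm, hm1, hm2⟩ : ∃ m m' : ℕ, m = 2 * m' ∧ m ≤ 1000 ∧
      (15 : ℝ) ^ m' * 10 ^ 14 ≤ 16 ^ m' := by
    refine ⟨2 * (250 + 250), 250 + 250, rfl, le_rfl, ?_⟩
    have h : (15 : ℝ) ^ 250 * 10 ^ 7 ≤ 16 ^ 250 := by norm_num
    calc (15 : ℝ) ^ (250 + 250) * 10 ^ 14 = (15 ^ 250 * 10 ^ 7) * (15 ^ 250 * 10 ^ 7) := by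
          rw [pow_add, show (10 : ℝ) ^ 14 = 10 ^ 7 * 10 ^ 7 by norm_num]; ac_rfl
      _ ≤ 16 ^ 250 * 16 ^ 250 := mul_le_mul h h (by positivity) (by positivity)
      _ = _ := (pow_add _ _ _).symm
  obtain ⟨n, hn⟩ : ∃ n : ℕ, (n : ℝ) = 10 ^ 9 := ⟨10 ^ 9, by norm_num⟩
  have hn0 : 0 < n := by
    have : (0 : ℝ) < n := by rw [hn]; norm_num
    exact_mod_cast this
  refine ⟨n, 3 * n, m, hn0, 1 / (10 ^ 21 * (1 + 4 ^ m)), by positivity, ?_⟩
  intro V Ω _ _ lab st Tg Cl k₁ k₂ l r B N ρ x hs hM h0 hρ hC hI hB hN hN' hB' hk hd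
  set η : ℝ := 1 / (10 ^ 21 * (1 + 4 ^ m)) with hη
  have h4 : (4 : ℝ) ^ m = 16 ^ m' := by rw [hm, pow_mul]; norm_num
  have h4p : (0 : ℝ) < 4 ^ m := by positivity
  have hM' : ∀ y, ρ y ≤ m * l → ∀ k ≤ k₂, ∀ z, ((univ.filter fun w : Fin (k * m) → Fin 4 =>
      run st y (List.ofFn w) = some z).card : ℝ) ≤ ((15 : ℝ) ^ m') ^ k := by
    intro y hy k hk z
    have h1 := (Nat.cast_le (α := ℝ)).2 (hM y z k hk hy)
    refine (pow_le_pow_iff_left₀ (by positivity) (by positivity) two_ne_zero).1 ?_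
    rw [← pow_mul, ← pow_mul, show m' * (k * 2) = k * m by rw [hm]; ring]
    exact_mod_cast h1
  have hl : (15 : ℝ) ^ m' / 4 ^ m ≤ 1 / 10 ^ 14 := by
    rw [div_le_div_iff₀ h4p (by positivity), h4]; linarith
  obtain ⟨θ, hθ⟩ : ∃ θ : ℝ, θ = 2 * ((3 * n : ℕ) : ℝ) * 15 ^ m' * (1 / (n : ℝ) * (1 / 4 ^ m)) :=
    ⟨_, rfl⟩
  have hθ1 : θ = 6 * (15 ^ m' / 4 ^ m) := by
    rw [hθ]; push_cast; rw [hn]; field_simp; norm_num
  have hθ0 : 0 ≤ θ := by rw [hθ1]; positivity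
  have hθ2 : θ ≤ 6 / 10 ^ 14 := by rw [hθ1]; linarith
  have hml : ∀ t k, t ≤ k → k ≤ k₂ → t * (m * l) ≤ k₂ * (m * l) := fun t k h1 h2 =>
    Nat.mul_le_mul_right _ (h1.trans h2)
  have hml1 : m * l ≤ k₂ * (m * l) := by simpa using hml 1 1 le_rfl hk
  have hU : ∀ v, ρ v ≤ m * l → ∀ k ≤ k₂, ∀ (D : Dt (3 * n) m k) y, Sk st D y → y 0 = v →
      ∀ t ≤ k, ρ (y t) ≤ (k₂ + 2) * (m * l) + r := by
    intro v hv k hk D y h1 h2 t ht
    have h3 := h1.ht hρ t ht
    have := hml t k ht hk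
    rw [h2] at h3
    rw [add_mul]; omega
  have hU' : ∀ v, ρ v ≤ m * l → ∀ k ≤ k₂, ∀ (D : Dt (3 * n) m k) y, Sk st D y → Cl v (y 0) →
      ∀ t ≤ k, ρ (y t) ≤ (k₂ + 2) * (m * l) + r := by
    intro v hv k hk D y h1 h2 t ht
    have h3 := h1.ht hρ t ht
    have := hml t k ht hk
    have := hC _ _ h2
    rw [add_mul]; omega
  have hbad : ∀ v, ρ v ≤ m * l → pr (fun ω => Bad (Raw st (lab ω)) Tg Cl k₁ k₂ v) ≤ 4 * η :=
    fun v hv => pr_bad hs hI (by positivity) (by positivity) (hM' v hv) (hU v hv) (hU' v hv) hB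
      (fun k => hN k v) hN' hB' hθ (by linarith) (by push_cast; rw [hn]; norm_num)
  have hx : ρ x ≤ m * l := by omega
  have htg : ∀ (w : Fin m → Fin 4) y, run st x (List.ofFn w) = some y → ρ y ≤ m * l := by
    intro w y hy
    have := run_ht hρ hy
    simpa [h0] using this
  have key : ∀ i : Fin (3 * n), 2 / (3 * 10 ^ 18) ≤
      pr fun ω => ∃ y, Surv st (lab ω) Tg Cl k₁ k₂ (x, i) y := by
    intro i
    have p0 := pr_raw hI (x := x) (Λ := 15 ^ m') (by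
      have := hM' x hx 1 hk x
      rw [pow_one] at this
      refine le_trans (le_of_eq ?_) this
      congr 1
      refine card_bij (fun w _ j => w (j.cast (one_mul m))) ?_ ?_ ?_
      · intro w hw
        simp only [mem_filter, mem_univ, true_and] at hw ⊢
        rwa [← List.ofFn_congr (one_mul m).symm]
      · intro w _ w' _ h
        funext j
        simpa using congrFun h (j.cast (one_mul m).symm)
      · intro w hw
        simp only [mem_filter, mem_univ, true_and] at hw ⊢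
        refine ⟨fun j => w (j.cast (one_mul m).symm), ?_, by funext j; simp⟩
        rwa [← List.ofFn_congr (one_mul m)]) hd (by rw [add_mul]; omega)
      (fun w y hy => by have := htg w y hy; rw [add_mul]; omega) i
    have p1 := pr_cyc hs hI (by positivity) (hM' x hx) (hU x hx) hθ (by linarith)
    have p2 := hbad x hx
    have p3 : pr (fun ω => ∃ y, Raw st (lab ω) (x, i) y ∧ Bad (Raw st (lab ω)) Tg Cl k₁ k₂ y) ≤
        4 ^ m * (4 * η) := by
      refine (pr_union_const (univ : Finset (Fin m → Fin 4)) (fun w ω => ∃ y,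
        run st x (List.ofFn w) = some y ∧ Bad (Raw st (lab ω)) Tg Cl k₁ k₂ y) (a := 4 * η)
        (fun ω ⟨y, g1, g2⟩ => ⟨_, mem_univ _, y, g1.2.2.2, g2⟩) fun w _ => ?_).trans (by simp)
      refine pr_of_ex (by positivity) fun _ ⟨y, g1, _⟩ => ?_
      refine (pr_mono ?_).trans (hbad y (htg w y g1))
      rintro ω ⟨y', g2, g3⟩
      rwa [Option.some.inj (g1.symm.trans g2)]
    have p4 := pr_cross hs hI hρ (x := x) (fun y hy => by rw [add_mul]; omega) i
    have p5 : pr (fun ω => ∃ y, Raw st (lab ω) (x, i) y) ≤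
        pr (fun ω => ∃ y, Surv st (lab ω) Tg Cl k₁ k₂ (x, i) y) +
        (pr (fun ω => Cyc (Raw st (lab ω)) k₂ x) +
        (pr (fun ω => Bad (Raw st (lab ω)) Tg Cl k₁ k₂ x) +
        (pr (fun ω => ∃ y, Raw st (lab ω) (x, i) y ∧ Bad (Raw st (lab ω)) Tg Cl k₁ k₂ y) +
        pr (fun ω => ∃ y, Raw st (lab ω) (x, i) y ∧ Cross st (lab ω) (x, i) y)))) := by
      refine le_trans (pr_mono ?_) ((pr_or _ _).trans (add_le_add le_rfl ((pr_or _ _).trans
        (add_le_add le_rfl ((pr_or _ _).trans (add_le_add le_rfl (pr_or _ _)))))))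
      rintro ω ⟨y, hy⟩
      by_contra hc
      simp only [not_or, not_exists, not_and] at hc
      exact hc.1 y ⟨hy, hc.2.1, hc.2.2.1, hc.2.2.2.1 y hy, hc.2.2.2.2 y hy⟩
    have q1 : 4 * η + 4 ^ m * (4 * η) = 4 / 10 ^ 21 := by rw [hη]; field_simp
    have q2 : θ ^ 2 ≤ (6 / 10 ^ 14) ^ 2 := pow_le_pow_left₀ hθ0 hθ2 2
    have q3 : ((m : ℝ) + 1) ^ 2 ≤ 1001 ^ 2 := by
      have : (m : ℝ) ≤ 1000 := by exact_mod_cast hm1
      exact pow_le_pow_left₀ (by positivity) (by linarith) 2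
    push_cast at p4
    rw [hn] at p0 p4
    nlinarith
  refine le_trans ?_ (sum_le_sum fun i _ => key i)
  rw [sum_const, card_univ, Fintype.card_fin, nsmul_eq_mul]
  push_cast
  rw [hn]
  norm_num

/-- product labels on a finite set of points are independent -/
theorem indep_pi {V : Type} {n L m : ℕ} (hn : 0 < n) (U : Finset V) [DecidableEq V]
    (β₀ : V → Lab n L m) :
    Indep (fun (ω : U → Lab n L m) v => if h : v ∈ U then ω ⟨v, h⟩ else β₀ v) (· ∈ U) := by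
  classical
  intro ι κ _ _ c s w hc hs hcU hsU
  let T₁ : U → Finset (Fin n) := fun u => if (u : V) ∈ Set.range c then {⟨0, hn⟩} else univ
  let T₂ : U → Fin L → Finset (Fin m → Fin 4) := fun u i =>
    if h : ((u : V), i) ∈ Set.range s then {w h.choose} else univ
  have h1 : (univ.filter fun ω : U → Lab n L m =>
      (∀ a, Cen (fun v => if h : v ∈ U then ω ⟨v, h⟩ else β₀ v) (c a)) ∧
      ∀ b, (if h : (s b).1 ∈ U then ω ⟨(s b).1, h⟩ else β₀ (s b).1).2 (s b).2 = w b) =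
      Fintype.piFinset fun u => T₁ u ×ˢ Fintype.piFinset (T₂ u) := by
    ext ω
    simp only [mem_filter, mem_univ, true_and, Fintype.mem_piFinset, mem_product, Cen, hcU, hsU,
      dite_true, T₁, T₂]
    constructor
    · rintro ⟨g1, g2⟩ u
      refine ⟨?_, fun i => ?_⟩
      · split_ifs with g
        · obtain ⟨a, ha⟩ := g
          have : u = ⟨c a, hcU a⟩ := Subtype.ext ha.symm
          rw [this, mem_singleton]
          exact Fin.ext (g1 a)
        · exact mem_univ _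
      · split_ifs with g
        · have g3 := g.choose_spec
          have g4 := g2 g.choose
          simp only [g3] at g4
          exact mem_singleton.2 g4
        · exact mem_univ _
    · intro g
      refine ⟨fun a => ?_, fun b => ?_⟩
      · have := (g ⟨c a, hcU a⟩).1
        rw [if_pos ⟨a, rfl⟩, mem_singleton] at this
        rw [this]
      · have := (g ⟨(s b).1, hsU b⟩).2 (s b).2
        have g3 : (((⟨(s b).1, hsU b⟩ : U) : V), (s b).2) ∈ Set.range s := ⟨b, rfl⟩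
        rw [dif_pos g3, mem_singleton, hs (g3.choose_spec : s _ = s b)] at this
        exact this
  have hn' : (n : ℝ) ≠ 0 := by positivity
  have h2 : ∀ u, ((T₁ u).card : ℝ) = n * if (u : V) ∈ Set.range c then 1 / (n : ℝ) else 1 := by
    intro u
    simp only [T₁]
    split_ifs <;> simp [hn']
  have h3 : ∀ u i, ((T₂ u i).card : ℝ) =
      4 ^ m * if ((u : V), i) ∈ Set.range s then 1 / (4 : ℝ) ^ m else 1 := by
    intro u i
    simp only [T₂]
    split_ifs <;> simp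
  have h4 : (univ.filter fun u : U => (u : V) ∈ Set.range c).card = Fintype.card ι := by
    refine (card_bij (s := univ) (fun a _ => (⟨c a, hcU a⟩ : U)) (fun a _ => by simp) ?_ ?_).symm
    · intro a _ a' _ h; exact hc (congrArg Subtype.val h)
    · intro u hu
      obtain ⟨a, ha⟩ := (mem_filter.1 hu).2
      exact ⟨a, mem_univ _, Subtype.ext ha⟩
  have h5 : (univ.filter fun q : U × Fin L => ((q.1 : V), q.2) ∈ Set.range s).card =
      Fintype.card κ := by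
    refine (card_bij (s := univ) (fun b _ => ((⟨(s b).1, hsU b⟩ : U), (s b).2))
      (fun b _ => by simp) ?_ ?_).symm
    · intro a _ a' _ h
      exact hs (Prod.ext (congrArg (fun q : U × Fin L => (q.1 : V)) h)
        (congrArg (fun q : U × Fin L => q.2) h))
    · intro u hu
      obtain ⟨a, ha⟩ := (mem_filter.1 hu).2
      exact ⟨a, mem_univ _, by simp [ha]⟩
  unfold pr
  rw [div_eq_iff (by
    have : Nonempty (Fin n) := ⟨⟨0, hn⟩⟩
    exact_mod_cast Fintype.card_ne_zero)]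
  refine (congrArg (fun T : Finset (U → Lab n L m) => (T.card : ℝ))
    (Eq.trans (by congr) h1)).trans ?_
  simp only [Fintype.card_piFinset, card_product, Nat.cast_prod, Nat.cast_mul, h2, h3,
    prod_mul_distrib]
  rw [← Fintype.prod_prod_type' (f := fun (u : U) (i : Fin L) =>
    if ((u : V), i) ∈ Set.range s then 1 / (4 : ℝ) ^ m else 1), prod_ite, prod_ite]
  simp only [prod_const_one, mul_one, prod_const, h4, h5]
  simp [mul_pow]
  ring

end Pool.Agent.MP_735563_an.H2.Cnt
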