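import Pool.Agent.MP_735563_an.H20.CntA

set_option autoImplicit false

/-! Deterministic consequences of the removal rules, transfer along local isomorphisms. -/

namespace Pool.Agent.MP_735563_an.H2.Cnt

open Finset

section Paths

variable {V : Type} {L : ℕ} {R S : V × Fin L → V → Prop}

theorem Step.symm {v v' : V} {e : V × Fin L} (h : Step R v e v') : Step R v' e v := Or.symm h

theorem Step.mono (hS : ∀ e y, S e y → R e y) {v v' : V} {e : V × Fin L} (h : Step S v e v') :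
    Step R v e v' := h.imp (fun h => ⟨h.1, hS _ _ h.2⟩) fun h => ⟨h.1, hS _ _ h.2⟩

theorem Step.ne (hi : ∀ e y, R e y → y ≠ e.1) {v v' : V} {e : V × Fin L} (h : Step R v e v') :
    v ≠ v' := by
  rcases h with ⟨rfl, h⟩ | ⟨rfl, h⟩
  exacts [(hi _ _ h).symm, hi _ _ h]

/-- an edge determines its two ends -/
theorem Step.ends (hf : ∀ e y y', R e y → R e y' → y = y') {a b a' b' : V} {e : V × Fin L}
    (h : Step R a e b) (h' : Step R a' e b') : (a = a' ∧ b = b') ∨ (a = b' ∧ b = a') := by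
  rcases h with ⟨rfl, h⟩ | ⟨rfl, h⟩ <;> rcases h' with ⟨h1, h'⟩ | ⟨h1, h'⟩
  exacts [Or.inl ⟨h1, hf _ _ _ h h'⟩, Or.inr ⟨h1, hf _ _ _ h h'⟩, Or.inr ⟨hf _ _ _ h h', h1⟩,
    Or.inl ⟨hf _ _ _ h h', h1⟩]

/-- a path with distinct vertices is a chain -/
theorem chain_of_inj (hf : ∀ e y y', R e y → R e y' → y = y') {k : ℕ} {x : ℕ → V}
    {e : ℕ → V × Fin L} (h : ∀ t < k, Step R (x t) (e t) (x (t + 1)))
    (hx : ∀ t ≤ k, ∀ t' ≤ k, x t = x t' → t = t') : Chain R k x e := by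
  refine ⟨h, fun t ht t' ht' => hx t ht.le t' ht'.le, fun t ht t' ht' he => ?_⟩
  rcases (h t ht).ends hf (he ▸ h t' ht') with ⟨h1, -⟩ | ⟨h1, h2⟩
  · exact hx t ht.le t' ht'.le h1
  · have := hx t ht.le (t' + 1) ht' h1
    have := hx (t + 1) ht t' ht'.le h2
    omega

theorem Chain.sub {k a b : ℕ} {x : ℕ → V} {e : ℕ → V × Fin L} (h : Chain R k x e)
    (hab : a + b ≤ k) : Chain R b (fun t => x (a + t)) fun t => e (a + t) :=
  ⟨fun t ht => h.1 (a + t) (by omega),
    fun t ht t' ht' h1 => by have := h.2.1 (a + t) (by omega) (a + t') (by omega) h1; omega,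
    fun t ht t' ht' h1 => by have := h.2.2 (a + t) (by omega) (a + t') (by omega) h1; omega⟩

theorem Chain.mono (hS : ∀ e y, S e y → R e y) {k : ℕ} {x : ℕ → V} {e : ℕ → V × Fin L}
    (h : Chain S k x e) : Chain R k x e := ⟨fun t ht => (h.1 t ht).mono hS, h.2⟩

/-- a short closed chain gives a closed chain at the source of its first edge -/
theorem cyc_src {k k₂ : ℕ} {x : ℕ → V} {e : ℕ → V × Fin L} (h : Chain R k x e) (h2 : 2 ≤ k)
    (hk : k ≤ k₂) (hc : x k = x 0) : Cyc R k₂ (e 0).1 := by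
  rcases h.1 0 (by omega) with ⟨h1, -⟩ | ⟨h1, -⟩
  · exact ⟨k, x, e, h2, hk, h, h1.symm, hc.trans h1.symm⟩
  · have hx : ∀ t < k, x (t + 1) = x ((t + 1) % k) := by
      intro t ht
      by_cases h3 : t + 1 < k
      · rw [Nat.mod_eq_of_lt h3]
      · rw [show t + 1 = k by omega, Nat.mod_self, hc]
    have hm : ∀ t < k, ∀ t' < k, (t + 1) % k = (t' + 1) % k → t = t' := by
      intro t ht t' ht' h3
      by_cases h4 : t + 1 < k <;> by_cases h5 : t' + 1 < k
      · rw [Nat.mod_eq_of_lt h4, Nat.mod_eq_of_lt h5] at h3; omega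
      · rw [Nat.mod_eq_of_lt h4, show t' + 1 = k by omega, Nat.mod_self] at h3; omega
      · rw [Nat.mod_eq_of_lt h5, show t + 1 = k by omega, Nat.mod_self] at h3; omega
      · omega
    have hl : ∀ t, t % k < k := fun t => Nat.mod_lt _ (by omega)
    refine ⟨k, fun t => x ((t + 1) % k), fun t => e ((t + 1) % k), h2, hk,
      ⟨fun t _ => ?_, fun t ht t' ht' h3 => hm t ht t' ht' (h.2.1 _ (hl _) _ (hl _) h3),
        fun t ht t' ht' h3 => hm t ht t' ht' (h.2.2 _ (hl _) _ (hl _) h3)⟩, ?_, ?_⟩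
    · have := h.1 _ (hl (t + 1))
      rwa [hx _ (hl _), Nat.mod_add_mod] at this
    · simp only [Nat.mod_eq_of_lt (show 0 + 1 < k by omega), h1]
    · simp only [Nat.add_mod_left, Nat.mod_eq_of_lt (show 1 < k by omega), h1]

/-- a short non backtracking path of edges without short cycles has distinct vertices -/
theorem nb_inj (hf : ∀ e y y', R e y → R e y' → y = y') (hi : ∀ e y, R e y → y ≠ e.1)
    (hS : ∀ e y, S e y → R e y) {k₂ : ℕ} (hc : ∀ e y, S e y → ¬ Cyc R k₂ e.1) {k : ℕ}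
    (hk : k ≤ k₂) {x : ℕ → V} {e : ℕ → V × Fin L} (h : ∀ t < k, Step S (x t) (e t) (x (t + 1)))
    (hn : ∀ t, t + 1 < k → e (t + 1) ≠ e t) : ∀ t ≤ k, ∀ t' ≤ k, x t = x t' → t = t' := by
  have key : ∀ b a, a + b ≤ k → x a = x (a + b) → b = 0 := by
    intro b
    induction b using Nat.strong_induction_on with
    | _ b ih =>
      intro a hab hx
      by_contra hb
      have hv : ∀ t < b, ∀ t' < b, x (a + t) = x (a + t') → t = t' := by
        intro t ht t' ht' h1
        rcases le_total t t' with h2 | h2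
        · have := ih (t' - t) (by omega) (a + t) (by omega)
            (by rw [h1]; congr 1; omega)
          omega
        · have := ih (t - t') (by omega) (a + t') (by omega)
            (by rw [← h1]; congr 1; omega)
          omega
      have hst : ∀ t < b, Step R (x (a + t)) (e (a + t)) (x (a + (t + 1))) :=
        fun t ht => (h (a + t) (by omega)).mono hS
      have hb1 : b ≠ 1 := by
        rintro rfl
        exact (hst 0 (by omega)).ne hi hx
      have he : ∀ t < b, ∀ t' < b, t < t' → e (a + t) ≠ e (a + t') := by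
        intro t ht t' ht' htt h1
        rcases (hst t ht).ends hf (h1 ▸ hst t' ht') with ⟨h2, -⟩ | ⟨-, h2⟩
        · have := hv t ht t' ht' h2; omega
        · have := hv (t + 1) (by omega) t' ht' h2
          subst this
          exact hn (a + t) (by omega) h1.symm
      have hch : Chain R b (fun t => x (a + t)) fun t => e (a + t) := by
        refine ⟨hst, hv, fun t ht t' ht' h1 => ?_⟩
        rcases lt_trichotomy t t' with h2 | h2 | h2
        exacts [absurd h1 (he t ht t' ht' h2), h2, absurd h1.symm (he t' ht' t ht h2)]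
      have hcy := cyc_src hch (by omega) (show b ≤ k₂ by omega) hx.symm
      rcases h a (by omega) with ⟨-, h1⟩ | ⟨-, h1⟩ <;> exact hc _ _ h1 hcy
  intro t ht t' ht' h1
  rcases le_total t t' with h2 | h2
  · have := key (t' - t) t (by omega) (by rw [h1]; congr 1; omega)
    omega
  · have := key (t - t') t' (by omega) (by rw [← h1]; congr 1; omega)
    omega

/-- non backtracking on vertices implies non backtracking on edges -/
theorem nb_edge (hf : ∀ e y y', R e y → R e y' → y = y') (hi : ∀ e y, R e y → y ≠ e.1)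
    {a b c : V} {e e' : V × Fin L} (h : Step R a e b) (h' : Step R b e' c) (hac : c ≠ a) :
    e' ≠ e := by
  rintro rfl
  rcases h.ends hf h' with ⟨h1, -⟩ | ⟨h1, -⟩
  exacts [h.ne hi h1, hac h1.symm]

end Paths

section Rules

variable {V : Type} {n L m : ℕ} {st : V → Fin 4 → Option V} {β : V → Lab n L m}
  {Tg : ℕ → V → V → Prop} {Cl : V → V → Prop} {k₁ k₂ : ℕ}

theorem Raw.fn (e : V × Fin L) (y y' : V) (h : Raw st β e y) (h' : Raw st β e y') : y = y' :=
  Option.some.inj (h.2.2.2.symm.trans h'.2.2.2)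

theorem Raw.irr (e : V × Fin L) (y : V) (h : Raw st β e y) : y ≠ e.1 := h.2.2.1

theorem Surv.raw (e : V × Fin L) (y : V) (h : Surv st β Tg Cl k₁ k₂ e y) : Raw st β e y := h.1

theorem Step.cen {v v' : V} {e : V × Fin L} (h : Step (Raw st β) v e v') : Cen β v := by
  rcases h with ⟨rfl, h⟩ | ⟨-, h⟩
  exacts [h.1, h.2.1]

theorem Step.not_bad {v v' : V} {e : V × Fin L} (h : Step (Surv st β Tg Cl k₁ k₂) v e v') :
    ¬ Bad (Raw st β) Tg Cl k₁ k₂ v := by
  rcases h with ⟨rfl, h⟩ | ⟨-, h⟩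
  exacts [h.2.2.1, h.2.2.2.1]

/-- short non backtracking paths of surviving edges have distinct vertices -/
theorem surv_inj {k : ℕ} (hk : k ≤ k₂) {x : ℕ → V} {e : ℕ → V × Fin L}
    (h : ∀ t < k, Step (Surv st β Tg Cl k₁ k₂) (x t) (e t) (x (t + 1)))
    (hn : ∀ t, t + 1 < k → x (t + 2) ≠ x t) : ∀ t ≤ k, ∀ t' ≤ k, x t = x t' → t = t' :=
  nb_inj Raw.fn Raw.irr Surv.raw (fun _ _ h => h.2.1) hk h fun t ht =>
    nb_edge Raw.fn Raw.irr ((h t (by omega)).mono Surv.raw) ((h (t + 1) ht).mono Surv.raw)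
      (hn t ht)

/-- a path of surviving edges with distinct vertices does not end in a target set -/
theorem surv_not_tg {k : ℕ} (h1 : 1 ≤ k) (hk : k ≤ k₂) {x : ℕ → V} {e : ℕ → V × Fin L}
    (h : ∀ t < k, Step (Surv st β Tg Cl k₁ k₂) (x t) (e t) (x (t + 1)))
    (hx : ∀ t ≤ k, ∀ t' ≤ k, x t = x t' → t = t') : ¬ Tg k (x 0) (x k) := fun ht =>
  (h 0 h1).not_bad ⟨k, x, e, hk, chain_of_inj Raw.fn (fun t ht => (h t ht).mono Surv.raw) hx,
    rfl, Or.inl ht⟩

/-- two close paths of surviving edges with distinct vertices, the first long, meet -/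
theorem surv_meet {k k' : ℕ} (h1 : 1 ≤ k) (h2 : k₁ ≤ k) (hk : k ≤ k₂) (hk' : k' ≤ k)
    {x x' : ℕ → V} {e e' : ℕ → V × Fin L}
    (h : ∀ t < k, Step (Surv st β Tg Cl k₁ k₂) (x t) (e t) (x (t + 1)))
    (hx : ∀ t ≤ k, ∀ t' ≤ k, x t = x t' → t = t')
    (h' : ∀ t < k', Step (Surv st β Tg Cl k₁ k₂) (x' t) (e' t) (x' (t + 1)))
    (hx' : ∀ t ≤ k', ∀ t' ≤ k', x' t = x' t' → t = t') (c1 : Cl (x 0) (x' 0))
    (c2 : Cl (x' k') (x k)) : ∃ t ≤ k, ∃ t' ≤ k', x t = x' t' := by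
  by_contra hc
  push Not at hc
  exact (h 0 h1).not_bad ⟨k, x, e, hk,
    chain_of_inj Raw.fn (fun t ht => (h t ht).mono Surv.raw) hx, rfl, Or.inr ⟨h2, k', x', e', hk',
      chain_of_inj Raw.fn (fun t ht => (h' t ht).mono Surv.raw) hx', c1, c2, hc⟩⟩

theorem Step.ht (hs : ∀ y z i, st y i = some z → st z (i + 2) = some y) {ρ : V → ℕ} {l : ℕ}
    (hρ : ∀ y i z, st y i = some z → ρ z ≤ ρ y + l) {v v' : V} {e : V × Fin L}
    (h : Step (Raw st β) v e v') : ρ v' ≤ ρ v + m * l := by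
  rcases h with ⟨rfl, h⟩ | ⟨rfl, h⟩
  · simpa [wd] using run_ht hρ h.2.2.2
  · simpa [wd, rl] using run_ht hρ (run_rl hs h.2.2.2)

theorem Chain.ht (hs : ∀ y z i, st y i = some z → st z (i + 2) = some y) {ρ : V → ℕ} {l : ℕ}
    (hρ : ∀ y i z, st y i = some z → ρ z ≤ ρ y + l) {k : ℕ} {x : ℕ → V} {e : ℕ → V × Fin L}
    (h : Chain (Raw st β) k x e) : ∀ t ≤ k, ρ (x t) ≤ ρ (x 0) + t * (m * l) := by
  intro t
  induction t with
  | zero => intro _; simp
  | succ t ih =>
    intro ht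
    have h1 := (h.1 t ht).ht hs hρ
    have h2 := ih (by omega)
    rw [Nat.succ_mul]
    omega

/-- a map that embeds the structure of height at most `R` -/
structure Emb {V' : Type} (st : V → Fin 4 → Option V) (β : V → Lab n L m)
    (Tg : ℕ → V → V → Prop) (Cl : V → V → Prop) (st' : V' → Fin 4 → Option V')
    (β' : V' → Lab n L m) (Tg' : ℕ → V' → V' → Prop) (Cl' : V' → V' → Prop) (ρ : V → ℕ)
    (l r R : ℕ) (f : V → V') : Prop where
  sym : ∀ y z i, st y i = some z → st z (i + 2) = some y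
  hst : ∀ y i z, st y i = some z → ρ z ≤ ρ y + l
  hcl : ∀ y z, Cl y z → ρ z ≤ ρ y + r
  inj : ∀ y z, ρ y ≤ R → ρ z ≤ R → f y = f z → y = z
  step : ∀ y i z, ρ y ≤ R → st y i = some z → st' (f y) i = some (f z)
  lab : ∀ y, ρ y ≤ R → β' (f y) = β y
  tg : ∀ k y z, ρ y ≤ R → ρ z ≤ R → Tg k y z → Tg' k (f y) (f z)
  cl : ∀ y z, ρ y ≤ R → ρ z ≤ R → Cl y z → Cl' (f y) (f z)

variable {V' : Type} {st' : V' → Fin 4 → Option V'} {β' : V' → Lab n L m}
  {Tg' : ℕ → V' → V' → Prop} {Cl' : V' → V' → Prop} {ρ : V → ℕ} {l r R : ℕ} {f : V → V'}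

theorem Emb.run_eq (h : Emb st β Tg Cl st' β' Tg' Cl' ρ l r R f) {w : List (Fin 4)} {y z : V}
    (hy : ρ y + w.length * l ≤ R) (hz : run st y w = some z) : run st' (f y) w = some (f z) := by
  induction w generalizing y with
  | nil => simp only [run, Option.some.injEq] at hz ⊢; rw [hz]
  | cons i w ih =>
    simp only [run] at hz ⊢
    rw [List.length_cons, Nat.succ_mul] at hy
    cases h1 : st y i with
    | none => rw [h1] at hz; simp at hz
    | some u =>
      rw [h1] at hz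
      have := h.hst _ _ _ h1
      rw [h.step y i u (by omega) h1]
      exact ih (by omega) hz

theorem Emb.wd_eq (h : Emb st β Tg Cl st' β' Tg' Cl' ρ l r R f) {e : V × Fin L}
    (he : ρ e.1 ≤ R) : wd β' (f e.1, e.2) = wd β e := by
  simp only [wd, h.lab _ he]

theorem Emb.raw (h : Emb st β Tg Cl st' β' Tg' Cl' ρ l r R f) {e : V × Fin L} {y : V}
    (he : ρ e.1 + m * l ≤ R) (hr : Raw st β e y) : Raw st' β' (f e.1, e.2) (f y) := by
  have h1 : ρ y ≤ ρ e.1 + m * l := by simpa [wd] using run_ht h.hst hr.2.2.2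
  refine ⟨?_, ?_, fun h2 => hr.2.2.1 (h.inj _ _ (by omega) (by omega) h2), ?_⟩
  · simpa only [Cen, h.lab e.1 (by omega)] using hr.1
  · simpa only [Cen, h.lab y (by omega)] using hr.2.1
  · rw [h.wd_eq (by omega)]
    exact h.run_eq (by simpa [wd] using he) hr.2.2.2

theorem Emb.chain (h : Emb st β Tg Cl st' β' Tg' Cl' ρ l r R f) {k : ℕ} {x : ℕ → V}
    {e : ℕ → V × Fin L} (hc : Chain (Raw st β) k x e) (hk : ρ (x 0) + (k + 1) * (m * l) ≤ R) :
    Chain (Raw st' β') k (fun t => f (x t)) fun t => (f (e t).1, (e t).2) := by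
  have h1 : ∀ t ≤ k, ρ (x t) + m * l ≤ R := by
    intro t ht
    have := hc.ht h.sym h.hst t ht
    have := Nat.mul_le_mul_right (m * l) ht
    rw [Nat.succ_mul] at hk
    omega
  have h2 : ∀ t < k, ρ (e t).1 + m * l ≤ R := by
    intro t ht
    rcases hc.1 t ht with ⟨h3, -⟩ | ⟨h3, -⟩ <;> rw [h3]
    exacts [h1 t ht.le, h1 (t + 1) ht]
  refine ⟨fun t ht => ?_, fun t ht t' ht' h3 => ?_, fun t ht t' ht' h3 => ?_⟩
  · rcases hc.1 t ht with ⟨h3, h4⟩ | ⟨h3, h4⟩
    exacts [Or.inl ⟨congrArg f h3, h.raw (h2 t ht) h4⟩, Or.inr ⟨congrArg f h3, h.raw (h2 t ht) h4⟩]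
  · have := h1 t ht.le; have := h1 t' ht'.le
    exact hc.2.1 t ht t' ht' (h.inj _ _ (by omega) (by omega) h3)
  · have := h2 t ht; have := h2 t' ht'
    exact hc.2.2 t ht t' ht' (Prod.ext (h.inj _ _ (by omega) (by omega) (congrArg Prod.fst h3))
      (congrArg (fun q : V' × Fin L => q.2) h3))

theorem Emb.cyc (h : Emb st β Tg Cl st' β' Tg' Cl' ρ l r R f) {v : V}
    (hv : ρ v + (k₂ + 1) * (m * l) ≤ R) (hc : Cyc (Raw st β) k₂ v) :
    Cyc (Raw st' β') k₂ (f v) := by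
  obtain ⟨k, x, e, h1, h2, h3, rfl, h4⟩ := hc
  have := Nat.mul_le_mul_right (m * l) (Nat.add_le_add_right h2 1)
  exact ⟨k, _, _, h1, h2, h.chain h3 (by omega), rfl, congrArg f h4⟩

theorem Emb.bad (h : Emb st β Tg Cl st' β' Tg' Cl' ρ l r R f) {v : V}
    (hv : ρ v + (k₂ + 1) * (m * l) + r ≤ R) (hc : Bad (Raw st β) Tg Cl k₁ k₂ v) :
    Bad (Raw st' β') Tg' Cl' k₁ k₂ (f v) := by
  obtain ⟨k, x, e, h1, h2, rfl, h3⟩ := hc
  have a1 := Nat.mul_le_mul_right (m * l) (Nat.add_le_add_right h1 1)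
  have a2 : ∀ t ≤ k, ρ (x t) ≤ R := by
    intro t ht
    have := h2.ht h.sym h.hst t ht
    have := Nat.mul_le_mul_right (m * l) (show t ≤ k₂ + 1 by omega)
    omega
  refine ⟨k, _, _, h1, h.chain h2 (by omega), rfl, ?_⟩
  rcases h3 with h3 | ⟨h3, k', x', e', h4, h5, h6, h7, h8⟩
  · exact Or.inl (h.tg _ _ _ (a2 0 (by omega)) (a2 k le_rfl) h3)
  · have a3 := h.hcl _ _ h6
    have a4 := Nat.mul_le_mul_right (m * l) (Nat.add_le_add_right (h4.trans h1) 1)
    have a5 : ∀ t ≤ k', ρ (x' t) ≤ R := by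
      intro t ht
      have := h5.ht h.sym h.hst t ht
      have := Nat.mul_le_mul_right (m * l) (show t ≤ k₂ + 1 by omega)
      omega
    exact Or.inr ⟨h3, k', _, _, h4, h.chain h5 (by omega),
      h.cl _ _ (a2 0 (by omega)) (a5 0 (by omega)) h6, h.cl _ _ (a5 k' le_rfl) (a2 k le_rfl) h7,
      fun t ht t' ht' h9 => h8 t ht t' ht' (h.inj _ _ (a2 t ht) (a5 t' ht') h9)⟩

theorem Emb.cross (h : Emb st β Tg Cl st' β' Tg' Cl' ρ l r R f) {e : V × Fin L} {y : V}
    (he : ρ e.1 + 3 * (m * l) ≤ R) (hr : Raw st β e y) (hc : Cross st β e y) :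
    Cross st' β' (f e.1, e.2) (f y) := by
  obtain ⟨e', y', s, s', z, h1, h2, h3, h4, h5, h6, h7, h8, h9⟩ := hc
  have t0 : ρ y ≤ ρ e.1 + m * l := by simpa [wd] using run_ht h.hst hr.2.2.2
  have t1 : ρ y' ≤ ρ e'.1 + m * l := by simpa [wd] using run_ht h.hst h1.2.2.2
  have t2 := run_ht h.hst h8
  have t3 := run_ht h.hst (run_rl h.sym h9)
  have t4 : ((wd β e).take s).length * l ≤ m * l := Nat.mul_le_mul_right _ (by simp [wd])
  have t5 : ((wd β e').take s').length * l ≤ m * l := Nat.mul_le_mul_right _ (by simp [wd])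
  have t6 : (rl ((wd β e').take s')).length * l ≤ m * l :=
    Nat.mul_le_mul_right _ (by simp [wd, rl])
  refine ⟨(f e'.1, e'.2), f y', s, s', f z, h.raw (by omega) h1,
    fun g => h2 (h.inj _ _ (by omega) (by omega) g), fun g => h3 (h.inj _ _ (by omega) (by omega) g),
    fun g => h4 (h.inj _ _ (by omega) (by omega) g), fun g => h5 (h.inj _ _ (by omega) (by omega) g),
    h6, h7, ?_, ?_⟩
  · rw [h.wd_eq (by omega)]; exact h.run_eq (by omega) h8
  · rw [h.wd_eq (by omega)]; exact h.run_eq (by omega) h9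

/-- a raw edge whose image survives survives -/
theorem Emb.surv (h : Emb st β Tg Cl st' β' Tg' Cl' ρ l r R f) {e : V × Fin L} {y : V}
    (he : ρ e.1 + (k₂ + 3) * (m * l) + r ≤ R) (hr : Raw st β e y)
    (hs : Surv st' β' Tg' Cl' k₁ k₂ (f e.1, e.2) (f y)) : Surv st β Tg Cl k₁ k₂ e y := by
  have t0 : ρ y ≤ ρ e.1 + m * l := by simpa [wd] using run_ht h.hst hr.2.2.2
  have t1 : (k₂ + 3) * (m * l) = (k₂ + 1) * (m * l) + 2 * (m * l) := by ring
  have t2 : m * l ≤ (k₂ + 1) * (m * l) := Nat.le_mul_of_pos_left _ (by omega)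
  exact ⟨hr, fun g => hs.2.1 (h.cyc (by omega) g), fun g => hs.2.2.1 (h.bad (by omega) g),
    fun g => hs.2.2.2.1 (h.bad (by omega) g), fun g => hs.2.2.2.2 (h.cross (by omega) hr g)⟩

end Rules

end Pool.Agent.MP_735563_an.H2.Cnt
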