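import Pool.Agent.MP_735563_an.H20.FeA

set_option autoImplicit false

/-! The counting estimate for final edges. -/

namespace Pool.Agent.MP_735563_an.H2.Cnt

open Finset

theorem Path.chain {V : Type} {n L m : ℕ} {st : V → Fin 4 → Option V} {β : V → Lab n L m}
    {k : ℕ} {x : ℕ → V} {e : ℕ → V × Fin L} (h : Path (Raw st β) k x e) :
    Chain (Raw st β) k x e := chain_of_inj Raw.fn h.1 h.2

/-- badness of the target of a raw edge whose source is not bad -/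
theorem bad_target {V : Type} {n L m : ℕ} {st : V → Fin 4 → Option V} {β : V → Lab n L m}
    {Tg : ℕ → V → V → Prop} {Cl : V → V → Prop} {k₁ k₂ : ℕ} (hT : ∀ y z, Tg 1 y z → Tg 1 z y)
    (h1 : 2 ≤ k₁) {e₀ : V × Fin L} {y : V} (hr : Raw st β e₀ y)
    (hx : ¬ Bad2 (Raw st β) Tg Cl k₁ k₂ e₀.1) (hy : Bad2 (Raw st β) Tg Cl k₁ k₂ y) :
    ∃ s ≤ 1, ∃ j x e, 1 ≤ j ∧ j + s ≤ k₂ ∧ Chain (Raw st β) j x e ∧ (∀ t < j, e t ≠ e₀) ∧
      x 0 = (if s = 0 then y else e₀.1) ∧ (Tg (j + s) y (x j) ∨ (k₁ ≤ j + s ∧ ∃ k' x' e',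
        k' ≤ j + s ∧ Chain (Raw st β) k' x' e' ∧ (∀ t < k', e' t ≠ e₀) ∧ Cl y (x' 0) ∧
        Cl (x' k') (x j) ∧ ∀ t ≤ j, ∀ t' ≤ k', x t ≠ x' t')) := by
  obtain ⟨k, x, e, g1, g2, g3, rfl, g4⟩ := hy
  have h0 : Step (Raw st β) e₀.1 e₀ (x 0) := Or.inl ⟨rfl, hr⟩
  have h2 : ∀ {k' : ℕ} {x' : ℕ → V} {e' : ℕ → V × Fin L}, Path (Raw st β) k' x' e' →
      (∀ t ≤ k, ∀ t' ≤ k', x t ≠ x' t') → ∀ t < k', e' t ≠ e₀ := by
    intro k' x' e' hp hd t ht he
    rcases (he ▸ hp.1 t ht).ends Raw.fn h0 with g | g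
    exacts [hd 0 (by omega) (t + 1) ht g.2.symm, hd 0 (by omega) t ht.le g.1.symm]
  by_cases hq : ∀ t < k, e t ≠ e₀
  · refine ⟨0, zero_le_one, k, x, e, g1, g2, g3.chain, hq, rfl, ?_⟩
    rcases g4 with g4 | ⟨g4, k', x', e', g5, g6, g7, g8, g9⟩
    exacts [Or.inl g4, Or.inr ⟨g4, k', x', e', g5, g6.chain, h2 g6 g9, g7, g8, g9⟩]
  · push Not at hq
    obtain ⟨t, ht, he⟩ := hq
    have h3 : t = 0 ∧ x 1 = e₀.1 := by
      rcases (he ▸ g3.1 t ht).ends Raw.fn h0 with g | g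
      · exact absurd (g3.2 (t + 1) ht 0 (by omega) g.2) (by omega)
      · have := g3.2 t ht.le 0 (by omega) g.1
        subst this
        exact ⟨rfl, g.2⟩
    obtain ⟨rfl, h4⟩ := h3
    obtain ⟨j, rfl⟩ := Nat.exists_eq_add_of_le' g1
    by_cases hj : j = 0
    · subst hj
      rcases g4 with g4 | ⟨g4, -⟩
      · refine absurd ⟨1, fun t => if t = 0 then e₀.1 else x 0, fun _ => e₀, le_rfl, g2,
          ⟨fun t ht => ?_, fun t ht t' ht' h => ?_⟩, rfl, Or.inl (hT _ _ (h4 ▸ g4))⟩ hx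
        · obtain rfl : t = 0 := by omega
          exact h0
        · have hne := hr.2.2.1
          have a1 : t = 0 ∨ t = 1 := by omega
          have a2 : t' = 0 ∨ t' = 1 := by omega
          rcases a1 with rfl | rfl <;> rcases a2 with rfl | rfl
          exacts [rfl, absurd h.symm hne, absurd h hne, rfl]
      · omega
    · have h5 := g3.chain
      refine ⟨1, le_rfl, j, fun t => x (1 + t), fun t => e (1 + t), by omega, g2,
        h5.sub (by omega), fun t ht h => ?_, h4, ?_⟩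
      · have := h5.2.2 (1 + t) (by omega) 0 (by omega) (h.trans he.symm)
        omega
      · simp only [add_comm 1 j]
        rcases g4 with g4 | ⟨g4, k', x', e', g5, g6, g7, g8, g9⟩
        exacts [Or.inl g4, Or.inr ⟨g4, k', x', e', g5, g6.chain, h2 g6 g9, g7, g8,
          fun t ht => g9 (1 + t) (by omega)⟩]

theorem exists_len (b : ℕ) : ∃ m' : ℕ, 1 ≤ m' ∧ ((b : ℝ) + 24) ^ 2 * (6 * (15 ^ m' / 16 ^ m')) ≤
    (1 / (100 * (2 * m' + 1) ^ 2)) ^ 2 / 1000 := by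
  have h := tendsto_pow_const_mul_const_pow_of_abs_lt_one 4 (r := (15 / 16 : ℝ))
    (by rw [abs_of_pos] <;> norm_num)
  have hc : (0 : ℝ) < 1 / (((b : ℝ) + 24) ^ 2 * 6 * 10 ^ 7 * 81) := by positivity
  obtain ⟨m', h1, h2⟩ := ((h.eventually (gt_mem_nhds hc)).and (Filter.eventually_ge_atTop 1)).exists
  refine ⟨m', h2, ?_⟩
  have h3 : (1 : ℝ) ≤ m' := by exact_mod_cast h2
  have h4 : (2 * (m' : ℝ) + 1) ^ 4 ≤ 81 * m' ^ 4 := by
    calc (2 * (m' : ℝ) + 1) ^ 4 ≤ (3 * m') ^ 4 := pow_le_pow_left₀ (by positivity) (by linarith) 4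
      _ = _ := by ring
  rw [lt_div_iff₀ (by positivity), div_pow] at h1
  have h5 : (1 / (100 * (2 * (m' : ℝ) + 1) ^ 2)) ^ 2 / 1000 = 1 / (10 ^ 7 * (2 * m' + 1) ^ 4) := by
    field_simp; norm_num
  rw [h5, le_div_iff₀ (by positivity)]
  have h6 : (0 : ℝ) ≤ ((b : ℝ) + 24) ^ 2 * (6 * (15 ^ m' / 16 ^ m')) * 10 ^ 7 := by positivity
  nlinarith [mul_le_mul_of_nonneg_left h4 h6]

theorem feAll' (b : ℕ) : ∃ n L m : ℕ, 100 ≤ n ∧ 2 ≤ m ∧ FeStmt b n L m := by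
  classical
  obtain ⟨m', hm1, hm2⟩ := exists_len b
  obtain ⟨m, hm⟩ : ∃ m, m = 2 * m' := ⟨_, rfl⟩
  obtain ⟨n, hn⟩ : ∃ n : ℕ, n = 100 * (m + 1) ^ 2 := ⟨_, rfl⟩
  have hn1 : 100 ≤ n := by rw [hn]; exact Nat.le_mul_of_pos_right _ (by positivity)
  have hn2 : (100 : ℝ) ≤ n := by exact_mod_cast hn1
  have hn3 : (n : ℝ) = 100 * (m + 1) ^ 2 := by rw [hn]; push_cast; ring
  refine ⟨n, 3 * n, m, hn1, by omega, ?_⟩
  intro V Ω _ _ lab st Tg Cl k₁ k₂ l r B ρ x hs hM h0 hρ hC hI hB hN hT hB' hk1 hk hd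
  have h4 : (4 : ℝ) ^ m = 16 ^ m' := by rw [hm, pow_mul]; norm_num
  have h4p : (0 : ℝ) < 4 ^ m := by positivity
  have hM' : ∀ y, ρ y ≤ m * l → ∀ k ≤ k₂, ∀ z, ((univ.filter fun w : Fin (k * m) → Fin 4 =>
      run st y (List.ofFn w) = some z).card : ℝ) ≤ ((15 : ℝ) ^ m') ^ k := by
    intro y hy k hk z
    have h1 := (Nat.cast_le (α := ℝ)).2 (hM y z k hk hy)
    refine (pow_le_pow_iff_left₀ (by positivity) (by positivity) two_ne_zero).1 ?_
    rw [← pow_mul, ← pow_mul, show m' * (k * 2) = k * m by rw [hm]; ring]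
    exact_mod_cast h1
  obtain ⟨θ, hθ⟩ : ∃ θ : ℝ, θ = 2 * ((3 * n : ℕ) : ℝ) * 15 ^ m' * (1 / (n : ℝ) * (1 / 4 ^ m)) :=
    ⟨_, rfl⟩
  have hθ1 : θ = 6 * (15 ^ m' / 4 ^ m) := by
    rw [hθ]; push_cast; field_simp; norm_num
  have hθ0 : 0 ≤ θ := by rw [hθ1]; positivity
  obtain ⟨p, hp⟩ : ∃ p : ℝ, p = (1 / (n : ℝ)) ^ 2 := ⟨_, rfl⟩
  have hp0 : 0 < p := by rw [hp]; positivity
  have hp1 : p ≤ 1 := by
    rw [hp]; exact pow_le_one₀ (by positivity) (by rw [div_le_one (by linarith)]; linarith)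
  have hθ2 : ((b : ℝ) + 24) ^ 2 * θ ≤ p / 1000 := by
    rw [hθ1, h4, hp, hn3, hm]; push_cast; exact hm2
  have hθ3 : θ ≤ p / 1000 := by
    have : (0 : ℝ) ≤ b := by positivity
    exact le_trans (le_mul_of_one_le_left hθ0 (by nlinarith)) hθ2
  have h6 : 2 * ((3 * n : ℕ) : ℝ) * (1 / (n : ℝ)) ≤ 6 := by
    push_cast; field_simp; norm_num
  have hml : ∀ t k, t ≤ k → k ≤ k₂ → t * (m * l) ≤ k₂ * (m * l) := fun t k h1 h2 =>
    Nat.mul_le_mul_right _ (h1.trans h2)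
  have hml1 : m * l ≤ k₂ * (m * l) := by simpa using hml 1 1 le_rfl hk
  have hU : ∀ v, ρ v ≤ m * l → ∀ k ≤ k₂, ∀ (D : Dt (3 * n) m k) y, Sk st D y → y 0 = v →
      ∀ t ≤ k, ρ (y t) ≤ (k₂ + 2) * (m * l) + r := by
    intro v hv k hk D y h1 h2 t ht
    have h3 := h1.ht hρ t ht
    have := hml t k ht hk
    rw [h2] at h3
    rw [add_mul]; omega
  have hU' : ∀ v, ρ v ≤ m * l → ∀ k ≤ k₂, ∀ (D : Dt (3 * n) m k) y, Sk st D y → Cl v (y 0) →
      ∀ t ≤ k, ρ (y t) ≤ (k₂ + 2) * (m * l) + r := by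
    intro v hv k hk D y h1 h2 t ht
    have h3 := h1.ht hρ t ht
    have := hml t k ht hk
    have := hC _ _ h2
    rw [add_mul]; omega
  have hx : ρ x ≤ m * l := by omega
  have hx' : ρ x ≤ (k₂ + 2) * (m * l) + r := by omega
  have htg : ∀ (w : Fin m → Fin 4) y, run st x (List.ofFn w) = some y → ρ y ≤ m * l := by
    intro w y hy
    have := run_ht hρ hy
    simpa [h0] using this
  have key : ∀ i : Fin (3 * n), 2 / 3 * p ≤
      pr fun ω => ∃ y, Fe st (lab ω) Tg Cl k₁ k₂ (x, i) y := by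
    intro i
    have p0 := pr_raw hI (x := x) (Λ := 15 ^ m') (by
      have := hM' x hx 1 hk x
      rw [pow_one] at this
      refine le_trans (le_of_eq ?_) this
      congr 1
      refine card_bij (fun w _ j => w (j.cast (one_mul m))) ?_ ?_ ?_
      · intro w hw
        simp only [mem_filter, mem_univ, true_and] at hw ⊢
        rwa [← List.ofFn_congr (one_mul m).symm]
      · intro w _ w' _ h
        funext j
        simpa using congrFun h (j.cast (one_mul m).symm)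
      · intro w hw
        simp only [mem_filter, mem_univ, true_and] at hw ⊢
        refine ⟨fun j => w (j.cast (one_mul m).symm), ?_, by funext j; simp⟩
        rwa [← List.ofFn_congr (one_mul m)]) hd hx'
      (fun w y hy => by have := htg w y hy; rw [add_mul]; omega) i
    have p1 := pr_cyc hs hI (by positivity) (hM' x hx) (hU x hx) hθ (by linarith)
    have p2 : pr (fun ω => Bad2 (Raw st (lab ω)) Tg Cl k₁ k₂ x) ≤ 1 * (8 * (p / 1000)) := by
      refine le_trans (pr_mono ?_) (pr_badx (s := 0) hs (ix_triv hI) (by positivity) zero_le_one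
        (hM' x hx) (hU x hx) (hU' x hx) hB (fun k => hN k x) hB' hθ hθ2 (by linarith) h6)
      rintro ω ⟨k, y, e, g1, g2, g3, g4, g5⟩
      refine ⟨trivial, k, y, e, g1, g2, g3.chain, fun _ _ => trivial, g4, ?_⟩
      rcases g5 with g5 | ⟨g5, k', y', e', g6, g7, g8⟩
      exacts [Or.inl g5, Or.inr ⟨g5, k', y', e', g6, g7.chain, fun _ _ => trivial, g8⟩]
    have pw : ∀ (P : Ω → V → Prop) (a : ℝ), 0 ≤ a → (∀ (w : Fin m → Fin 4) y, y ≠ x →
        run st x (List.ofFn w) = some y → pr (fun ω => (lab ω x).2 i = w ∧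
          Raw st (lab ω) (x, i) y ∧ P ω y) ≤ 1 / 4 ^ m * a) →
        pr (fun ω => ∃ y, Raw st (lab ω) (x, i) y ∧ P ω y) ≤ a := by
      intro P a ha h
      refine (pr_union_const (univ : Finset (Fin m → Fin 4)) (fun w ω => ∃ y,
        run st x (List.ofFn w) = some y ∧ (lab ω x).2 i = w ∧ Raw st (lab ω) (x, i) y ∧ P ω y)
        (a := 1 / 4 ^ m * a) (fun ω ⟨y, g1, g2⟩ => ⟨_, mem_univ _, y, g1.2.2.2, rfl, g1, g2⟩)
        fun w _ => ?_).trans (le_of_eq (by simp))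
      refine pr_of_ex (by positivity) fun _ ⟨y, g1, _, g, _⟩ => ?_
      refine (pr_mono ?_).trans (h w y g.2.2.1 g1)
      rintro ω ⟨y', g2, g3⟩
      rwa [Option.some.inj (g1.symm.trans g2)]
    have p3 := pw (fun ω y => ¬ Bad2 (Raw st (lab ω)) Tg Cl k₁ k₂ x ∧
        Bad2 (Raw st (lab ω)) Tg Cl k₁ k₂ y) (16 * (p / 1000)) (by positivity) (by
      intro w y _ hy
      have hy' := htg w y hy
      have a0 := pr_badx (s := 0) hs (ix_slot hI (e₀ := (x, i)) hx' w) (by positivity) zero_le_one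
        (hM' y hy') (hU y hy') (hU' y hy') hB (fun k => hN k y) hB' hθ hθ2 (by linarith) h6
      have a1 := pr_badx (s := 1) hs (ix_slot hI (e₀ := (x, i)) hx' w) (by positivity) le_rfl
        (hM' x hx) (hU x hx) (hU' y hy') hB (fun k => hN k y) hB' hθ hθ2 (by linarith) h6
      refine le_trans (pr_mono ?_) ((pr_or _ _).trans ((add_le_add a0 a1).trans (le_of_eq ?_)))
      · rintro ω ⟨g1, g2, g3, g4⟩
        obtain ⟨s, g5, g6⟩ := bad_target hT hk1 g2 g3 g4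
        have : s = 0 ∨ s = 1 := by omega
        rcases this with rfl | rfl
        exacts [Or.inl ⟨g1, g6⟩, Or.inr ⟨g1, g6⟩]
      · ring)
    have pb : ∀ (w : Fin m → Fin 4) y u, y ≠ x → run st x (List.ofFn w) = some y → (u = x ∨ u = y) →
        pr (fun ω => (lab ω x).2 i = w ∧ Raw st (lab ω) (x, i) y ∧ Big (Raw st (lab ω)) u) ≤
          1 / 4 ^ m * (p / 1000) := by
      intro w y u g1 g2 g3
      have g4 := htg w y g2
      have g5 := pr_big hs hI g1 g3 hx' (by rw [add_mul]; omega) (fun w z hz => by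
        have := run_ht hρ hz
        simp only [List.length_ofFn] at this
        rw [add_mul]
        rcases g3 with rfl | rfl <;> omega) i w
      have g6 : 2 * ((3 * n : ℕ) : ℝ) * (1 / (n : ℝ)) ^ 3 * (1 / 4 ^ m) = 6 * (1 / 4 ^ m * p) := by
        rw [hp]; push_cast; field_simp; norm_num
      have g7 : (0 : ℝ) ≤ 1 / 4 ^ m * p := by positivity
      rw [g6] at g5
      linarith
    have p5 := pw (fun ω _ => Big (Raw st (lab ω)) x) (p / 1000) (by positivity)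
      fun w y g1 g2 => pb w y x g1 g2 (Or.inl rfl)
    have p6 := pw (fun ω y => Big (Raw st (lab ω)) y) (p / 1000) (by positivity)
      fun w y g1 g2 => pb w y y g1 g2 (Or.inr rfl)
    have p4 := pr_cross hs hI hρ (x := x) (fun y hy => by rw [add_mul]; omega) i
    have q4 : ((m : ℝ) + 1) ^ 2 * ((3 * n : ℕ) : ℝ) * (1 / (n : ℝ)) ^ 4 = 3 / 100 * p := by
      have : ((m : ℝ) + 1) ^ 2 = n / 100 := by rw [hn3]; ring
      rw [this, hp]; push_cast; field_simp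
    rw [q4] at p4
    have p7 := le_trans (pr_mono (P := fun ω => ∃ y, Raw st (lab ω) (x, i) y) (Q := fun ω =>
        (∃ y, Fe st (lab ω) Tg Cl k₁ k₂ (x, i) y) ∨ Cyc (Raw st (lab ω)) k₂ x ∨
        Bad2 (Raw st (lab ω)) Tg Cl k₁ k₂ x ∨ (∃ y, Raw st (lab ω) (x, i) y ∧
          ¬ Bad2 (Raw st (lab ω)) Tg Cl k₁ k₂ x ∧ Bad2 (Raw st (lab ω)) Tg Cl k₁ k₂ y) ∨
        (∃ y, Raw st (lab ω) (x, i) y ∧ Cross st (lab ω) (x, i) y) ∨
        (∃ y, Raw st (lab ω) (x, i) y ∧ Big (Raw st (lab ω)) x) ∨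
        ∃ y, Raw st (lab ω) (x, i) y ∧ Big (Raw st (lab ω)) y) (by
      rintro ω ⟨y, hy⟩
      by_contra hc
      simp only [not_or, not_exists, not_and] at hc
      exact hc.1 y ⟨hy, hc.2.1, hc.2.2.1, hc.2.2.2.1 y hy hc.2.2.1, hc.2.2.2.2.1 y hy,
        hc.2.2.2.2.2.1 y hy, hc.2.2.2.2.2.2 y hy⟩))
      ((pr_or _ _).trans (add_le_add le_rfl ((pr_or _ _).trans (add_le_add p1 ((pr_or _ _).trans
        (add_le_add p2 ((pr_or _ _).trans (add_le_add p3 ((pr_or _ _).trans (add_le_add p4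
        ((pr_or _ _).trans (add_le_add p5 p6))))))))))))
    have q1 : (15 : ℝ) ^ m' / 4 ^ m ≤ 1 / 1000 := by linarith
    have q2 : θ ^ 2 ≤ p / 1000 := by nlinarith
    rw [← hp] at p0
    nlinarith
  refine le_trans (le_of_eq ?_) (sum_le_sum fun i _ => key i)
  rw [sum_const, card_univ, Fintype.card_fin, nsmul_eq_mul, hp]
  push_cast
  field_simp

theorem feAll : FeAll := fun b => by
  obtain ⟨n, L, m, h1, -, h2⟩ := feAll' b
  exact ⟨n, L, m, by omega, h2⟩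

end Pool.Agent.MP_735563_an.H2.Cnt
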