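import Pool.Agent.MP_735563_an.H20.Det2
import Pool.Agent.MP_735563_an.H2.Forest

set_option autoImplicit false

/-! Final edges that follow a free action form a forest. -/

namespace Pool.Agent.MP_735563_an.H2.Cnt

open Finset

/-- the element of the free group of a word -/
def gw : List (Fin 4) → FreeGroup (Fin 2)
  | [] => 1
  | i :: w => gw w * fg i

theorem gw_append (a b : List (Fin 4)) : gw (a ++ b) = gw b * gw a := by
  induction a with
  | nil => simp [gw]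
  | cons i a ih => simp [gw, ih, mul_assoc]

theorem gw_take (w : List (Fin 4)) (s : ℕ) (hs : s < w.length) :
    gw (w.take (s + 1)) = fg w[s] * gw (w.take s) := by
  rw [List.take_succ_eq_append_getElem hs, gw_append]
  simp [gw]

variable {V X : Type} {st : V → Fin 4 → Option V} {a : FreeGroup (Fin 2) → X → X} {N₀ : Set X}
  {π : V → X} {G : V → Prop}

theorem run_take {v y : V} {w : List (Fin 4)} (h : run st v w = some y) (s : ℕ) :
    ∃ z, run st v (w.take s) = some z := by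
  rw [← List.take_append_drop s w, run_append] at h
  obtain ⟨z, hz, -⟩ := Option.bind_eq_some_iff.1 h
  exact ⟨z, hz⟩

theorem walk_act (h1 : ∀ g, ∀ x ∈ N₀, a g x ∈ N₀) (h2 : ∀ x ∈ N₀, a 1 x = x)
    (h3 : ∀ g h, ∀ x ∈ N₀, a (g * h) x = a g (a h x))
    (hG : ∀ v i z, G v → st v i = some z → π z = a (fg i) (π v)) (w : List (Fin 4)) :
    ∀ v z, π v ∈ N₀ → (∀ s < w.length, ∀ u, run st v (w.take s) = some u → G u) →
      run st v w = some z → π z = a (gw w) (π v) := by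
  induction w with
  | nil =>
    intro v z hv _ h
    simp only [run, Option.some.injEq] at h
    rw [← h, gw, h2 _ hv]
  | cons i w ih =>
    intro v z hv hg h
    obtain ⟨u, hu, h⟩ := Option.bind_eq_some_iff.1 h
    have h4 := hG v i u (hg 0 (by simp) v rfl) hu
    rw [gw, h3 _ _ _ hv, ← h4]
    refine ih u z (h4 ▸ h1 _ _ hv) (fun s hs u' hu' => hg (s + 1) (by simpa using hs) u' ?_) h
    simp [run, hu, hu']

open Classical in
theorem forest_cnt {n L m : ℕ} {β : V → Lab n L m} {Tg : ℕ → V → V → Prop} {Cl : V → V → Prop}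
    {k₁ k₂ : ℕ} (h1 : ∀ g, ∀ x ∈ N₀, a g x ∈ N₀) (h2 : ∀ x ∈ N₀, a 1 x = x)
    (h3 : ∀ g h, ∀ x ∈ N₀, a (g * h) x = a g (a h x)) (h4 : ∀ g, ∀ x ∈ N₀, a g x = x → g = 1)
    (hπ : Function.Injective π) (hG : ∀ v i z, G v → st v i = some z → π z = a (fg i) (π v))
    (hk : 3 ≤ k₂) (C : Finset V) (hC : C.Nonempty) (hN : ∀ v ∈ C, π v ∈ N₀) :
    ((C ×ˢ (univ : Finset (Fin L))).filter fun e => ∃ y ∈ C, Fe st β Tg Cl k₁ k₂ e y ∧
      ∀ s < m, ∀ z, run st e.1 ((wd β e).take s) = some z → G z).card < C.card := by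
  set E := (C ×ˢ (univ : Finset (Fin L))).filter fun e => ∃ y ∈ C, Fe st β Tg Cl k₁ k₂ e y ∧
      ∀ s < m, ∀ z, run st e.1 ((wd β e).take s) = some z → G z with hE
  by_contra hc
  have hE1 : ∀ e : E, e.1.1 ∈ C := fun e => (mem_product.1 (mem_filter.1 e.2).1).1
  choose y hy1 hy2 hy3 using fun e : E => (mem_filter.1 e.2).2
  have : Nonempty C := hC.to_subtype
  obtain ⟨l, v, e, g1, g2, g3, g4, g5⟩ := forest C E (fun e => ⟨e.1.1, hE1 e⟩)
    (fun e => ⟨y e, hy1 e⟩) (by simpa using not_lt.1 hc)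
  have g6 : ∀ t < l, ((e t).1.1 = v t ∧ y (e t) = v (t + 1)) ∨
      ((e t).1.1 = v (t + 1) ∧ y (e t) = v t) := fun t ht =>
    (g3 t ht).imp (fun h => ⟨congrArg Subtype.val h.1, congrArg Subtype.val h.2⟩)
      fun h => ⟨congrArg Subtype.val h.2, congrArg Subtype.val h.1⟩
  have hch : Chain (Raw st β) l (fun t => v t) fun t => e t := by
    refine ⟨fun t ht => ?_, fun t ht t' ht' h => g4 t ht t' ht' (Subtype.ext h),
      fun t ht t' ht' h => g5 t ht t' ht' (Subtype.ext h)⟩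
    rcases g6 t ht with ⟨h, h'⟩ | ⟨h, h'⟩
    exacts [Or.inl ⟨h, by simpa only [h'] using (hy2 (e t)).1⟩,
      Or.inr ⟨h, by simpa only [h'] using (hy2 (e t)).1⟩]
  by_cases hl : l ≤ 3
  · by_cases hl1 : l = 1
    · subst hl1
      exact (hch.1 0 (by omega)).ne Raw.irr (congrArg Subtype.val g2.symm)
    · exact (hy2 (e 0)).2.1 (cyc_src hch (by omega) (by omega) (congrArg Subtype.val g2))
  have hw : ∀ e : V × Fin L, (wd β e).length = m := fun e => by simp [wd]
  have hact : ∀ (e : E) s z, run st e.1.1 ((wd β e).take s) = some z →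
      π z = a (gw ((wd β e).take s)) (π e.1.1) := by
    intro e s z hz
    refine walk_act h1 h2 h3 hG _ _ _ (hN _ (hE1 e)) (fun s' hs' u hu => ?_) hz
    rw [List.length_take, hw, lt_min_iff] at hs'
    rw [List.take_take, min_eq_left hs'.1.le] at hu
    exact hy3 e s' hs'.2 u hu
  have hend : ∀ e : E, run st e.1.1 ((wd β e).take m) = some (y e) := fun e => by
    rw [List.take_of_length_le (hw _).le]; exact (hy2 e).1.2.2.2
  have h0 : π (v 0) ∈ N₀ := hN _ (v 0).2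
  have hinv : ∀ g, ∀ x ∈ N₀, a g⁻¹ (a g x) = x := fun g x hx => by
    rw [← h3 _ _ _ hx, inv_mul_cancel, h2 _ hx]
  have horb : ∀ t ≤ l, ∃ g, a g (π (v 0)) = π (v t) := by
    intro t
    induction t with
    | zero => exact fun _ => ⟨1, h2 _ h0⟩
    | succ t ih =>
      intro ht
      obtain ⟨g, hg⟩ := ih (by omega)
      have h5 := hact (e t) m _ (hend _)
      rcases g6 t ht with ⟨h, h'⟩ | ⟨h, h'⟩
      · exact ⟨_ * g, by rw [h3 _ _ _ h0, hg, ← h, ← h', h5]⟩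
      · exact ⟨_ * g, by rw [h3 _ _ _ h0, hg, ← h, ← h', h5, hinv _ _ (hN _ (hE1 _))]⟩
  have hsrc : ∀ t, ∃ g, t < l → a g (π (v 0)) = π (e t).1.1 := by
    intro t
    by_cases ht : t < l
    · rcases g6 t ht with ⟨h, -⟩ | ⟨h, -⟩ <;> rw [h]
      exacts [(horb t ht.le).imp fun _ g _ => g, (horb (t + 1) ht).imp fun _ g _ => g]
    · exact ⟨1, fun h => absurd h ht⟩
  choose g hg using hsrc
  have hf : ∀ t < l, ∀ s z, run st (e t).1.1 ((wd β (e t)).take s) = some z →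
      a (gw ((wd β (e t)).take s) * g t) (π (v 0)) = π z := fun t ht s z hz => by
    rw [h3 _ _ _ h0, hg t ht, hact _ s z hz]
  have hu : ∀ b b', a b (π (v 0)) = a b' (π (v 0)) → b = b' := fun b b' h => by
    have := h4 (b'⁻¹ * b) _ h0 (by rw [h3 _ _ _ h0, h, hinv _ _ h0])
    exact (inv_mul_eq_one.1 this).symm
  have hx : ∀ t < l, v (t + 1) = v ((t + 1) % l) := by
    intro t ht
    by_cases h5 : t + 1 < l
    · rw [Nat.mod_eq_of_lt h5]
    · rw [show t + 1 = l by omega, Nat.mod_self, g2]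
  have hm : ∀ t, t % l < l := fun t => Nat.mod_lt _ (by omega)
  have hv : ∀ t < l, (∃ s ≤ m, run st (e t).1.1 ((wd β (e t)).take s) = some (v t : V)) ∧
      ∃ s ≤ m, run st (e t).1.1 ((wd β (e t)).take s) = some (v (t + 1) : V) := by
    intro t ht
    rcases g6 t ht with ⟨h, h'⟩ | ⟨h, h'⟩
    exacts [⟨⟨0, by omega, by rw [← h]; rfl⟩, m, le_rfl, h' ▸ hend _⟩,
      ⟨⟨m, le_rfl, h' ▸ hend _⟩, 0, by omega, by rw [← h]; rfl⟩]
  obtain ⟨t, ht, t', ht', n1, n2, n3, s, hs, s', hs', h5⟩ := tree l m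
    (fun t s => gw ((wd β (e t)).take s) * g t) (by omega)
    (fun t _ s hs => ⟨_, by rw [gw_take _ s (by rwa [hw]), mul_assoc]⟩) (fun t ht => by
      obtain ⟨s, hs, h5⟩ := (hv t ht).2
      obtain ⟨s', hs', h6⟩ := (hv _ (hm (t + 1))).1
      exact ⟨s, hs, s', hs', hu _ _ (by rw [hf t ht s _ h5, hf _ (hm _) s' _ h6, hx t ht])⟩)
  obtain ⟨z, hz⟩ := run_take (hy2 (e t)).1.2.2.2 s
  obtain ⟨z', hz'⟩ := run_take (hy2 (e t')).1.2.2.2 s'
  obtain rfl : z = z' := hπ (by rw [← hf t ht s z hz, ← hf t' ht' s' z' hz', h5])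
  have d1 : (v t' : V) ≠ v t := fun h => n1 (g4 t ht t' ht' (Subtype.ext h.symm))
  have d2 : (v t' : V) ≠ v (t + 1) := fun h =>
    n2 (g4 t' ht' _ (hm _) (by rw [← hx t ht]; exact Subtype.ext h))
  have d3 : (v (t' + 1) : V) ≠ v t := fun h =>
    n3 (g4 t ht _ (hm _) (by rw [← hx t' ht']; exact Subtype.ext h.symm))
  have d4 : (v (t' + 1) : V) ≠ v (t + 1) := fun h => by
    have h6 := g4 _ (hm (t + 1)) _ (hm (t' + 1))
      (by rw [← hx t ht, ← hx t' ht']; exact Subtype.ext h.symm)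
    apply n1
    by_cases h7 : t + 1 < l <;> by_cases h8 : t' + 1 < l
    · rw [Nat.mod_eq_of_lt h7, Nat.mod_eq_of_lt h8] at h6; omega
    · rw [Nat.mod_eq_of_lt h7, show t' + 1 = l by omega, Nat.mod_self] at h6; omega
    · rw [Nat.mod_eq_of_lt h8, show t + 1 = l by omega, Nat.mod_self] at h6; omega
    · omega
  refine (hy2 (e t)).2.2.2.2.1 ⟨e t', y (e t'), s, s', z, (hy2 _).1, ?_, ?_, ?_, ?_, hs, hs',
    hz, hz'⟩ <;> rcases g6 t ht with ⟨q1, q2⟩ | ⟨q1, q2⟩ <;>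
    rcases g6 t' ht' with ⟨q3, q4⟩ | ⟨q3, q4⟩ <;> simp only [q1, q2, q3, q4] <;> assumption

end Pool.Agent.MP_735563_an.H2.Cnt
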