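import Pool.Agent.MP_735563_an.H20.CDef

set_option autoImplicit false

/-! The final removal rules (fast chains, bounded degree) and the counting statement. -/

namespace Pool.Agent.MP_735563_an.H2.Cnt

section Defs

variable {V : Type} {n L m : ℕ}

/-- a path of `k` edges with pairwise different vertices -/
def Path (R : V × Fin L → V → Prop) (k : ℕ) (x : ℕ → V) (e : ℕ → V × Fin L) : Prop :=
  (∀ t < k, Step R (x t) (e t) (x (t + 1))) ∧ ∀ t ≤ k, ∀ t' ≤ k, x t = x t' → t = t'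

/-- a path from `v` ends in a target set, or runs along a disjoint path that is not longer -/
def Bad2 (R : V × Fin L → V → Prop) (Tg : ℕ → V → V → Prop) (Cl : V → V → Prop) (k₁ k₂ : ℕ)
    (v : V) : Prop :=
  ∃ k x e, 1 ≤ k ∧ k ≤ k₂ ∧ Path R k x e ∧ x 0 = v ∧ (Tg k v (x k) ∨ (k₁ ≤ k ∧ ∃ k' x' e',
    k' ≤ k ∧ Path R k' x' e' ∧ Cl v (x' 0) ∧ Cl (x' k') (x k) ∧ ∀ t ≤ k, ∀ t' ≤ k', x t ≠ x' t'))

/-- more than `10000` neighbours -/
def Big (R : V × Fin L → V → Prop) (v : V) : Prop :=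
  ∃ T : Finset V, 10000 < T.card ∧ ∀ y ∈ T, ∃ e, Step R v e y

/-- final edges -/
def Fe (st : V → Fin 4 → Option V) (β : V → Lab n L m) (Tg : ℕ → V → V → Prop)
    (Cl : V → V → Prop) (k₁ k₂ : ℕ) (e : V × Fin L) (y : V) : Prop :=
  Raw st β e y ∧ ¬ Cyc (Raw st β) k₂ e.1 ∧ ¬ Bad2 (Raw st β) Tg Cl k₁ k₂ e.1 ∧
    ¬ Bad2 (Raw st β) Tg Cl k₁ k₂ y ∧ ¬ Cross st β e y ∧ ¬ Big (Raw st β) e.1 ∧
    ¬ Big (Raw st β) y

end Defs

open Classical in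
/-- the expected number of final edges with source `x` is at least `2 / n` -/
def FeStmt (b n L m : ℕ) : Prop :=
  ∀ (V Ω : Type) [Fintype Ω] [Nonempty Ω] (lab : Ω → V → Lab n L m)
    (st : V → Fin 4 → Option V) (Tg : ℕ → V → V → Prop) (Cl : V → V → Prop)
    (k₁ k₂ l r B : ℕ) (ρ : V → ℕ) (x : V),
    (∀ y z i, st y i = some z → st z (i + 2) = some y) →
    (∀ y z, ∀ k ≤ k₂, ρ y ≤ m * l → (Finset.univ.filter fun w : Fin (k * m) → Fin 4 =>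
      run st y (List.ofFn w) = some z).card ^ 2 ≤ 15 ^ (k * m)) →
    ρ x = 0 → (∀ y i z, st y i = some z → ρ z ≤ ρ y + l) → (∀ y z, Cl y z → ρ z ≤ ρ y + r) →
    Indep lab (fun y => ρ y ≤ (k₂ + 2) * (m * l) + r) →
    (∀ y, ∃ T : Finset V, T.card ≤ B ∧ ∀ z, Cl y z → z ∈ T) →
    (∀ k y, ∃ T : Finset V, T.card ≤ b ^ k ∧ ∀ z, Tg k y z → z ∈ T) →
    (∀ y z, Tg 1 y z → Tg 1 z y) → B ^ 2 ≤ 2 ^ k₁ → 2 ≤ k₁ → 1 ≤ k₂ →
    (∀ w : Fin m → Fin 4, (run st x (List.ofFn w)).isSome) →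
    2 / (n : ℝ) ≤ ∑ i : Fin L, pr fun ω => ∃ y, Fe st (lab ω) Tg Cl k₁ k₂ (x, i) y

/-- the constants exist for every growth rate of the target sets -/
def FeAll : Prop := ∀ b : ℕ, ∃ n L m : ℕ, 0 < n ∧ FeStmt b n L m

end Pool.Agent.MP_735563_an.H2.Cnt
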