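import Pool.Agent.MP_735563_an.H2.Spec1

set_option autoImplicit false

/-! The task forest: raw edges, chains, removal rules, and the counting statement. -/

namespace Pool.Agent.MP_735563_an.H2.Cnt

/-- fresh label: a centre coordinate and `L` words of length `m` -/
abbrev Lab (n L m : ℕ) : Type := Fin n × (Fin L → Fin m → Fin 4)

section Defs

variable {V : Type} {n L m : ℕ}

/-- centres -/
def Cen (β : V → Lab n L m) (x : V) : Prop := ((β x).1 : ℕ) = 0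

/-- the word stored in a slot -/
def wd (β : V → Lab n L m) (e : V × Fin L) : List (Fin 4) := List.ofFn ((β e.1).2 e.2)

/-- raw edge with source `e.1` and target `y` -/
def Raw (st : V → Fin 4 → Option V) (β : V → Lab n L m) (e : V × Fin L) (y : V) : Prop :=
  Cen β e.1 ∧ Cen β y ∧ y ≠ e.1 ∧ run st e.1 (wd β e) = some y

/-- a step along an edge, in either direction -/
def Step (R : V × Fin L → V → Prop) (v : V) (e : V × Fin L) (v' : V) : Prop :=
  (e.1 = v ∧ R e v') ∨ (e.1 = v' ∧ R e v)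

/-- a chain of `k` distinct edges whose first `k` vertices are distinct -/
def Chain (R : V × Fin L → V → Prop) (k : ℕ) (x : ℕ → V) (e : ℕ → V × Fin L) : Prop :=
  (∀ t < k, Step R (x t) (e t) (x (t + 1))) ∧ (∀ t < k, ∀ t' < k, x t = x t' → t = t') ∧
    ∀ t < k, ∀ t' < k, e t = e t' → t = t'

/-- a short closed chain starts at `v` -/
def Cyc (R : V × Fin L → V → Prop) (k₂ : ℕ) (v : V) : Prop :=
  ∃ k x e, 2 ≤ k ∧ k ≤ k₂ ∧ Chain R k x e ∧ x 0 = v ∧ x k = v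

/-- a chain from `v` ends in a target set, or runs along a disjoint chain that is not longer -/
def Bad (R : V × Fin L → V → Prop) (Tg : ℕ → V → V → Prop) (Cl : V → V → Prop) (k₁ k₂ : ℕ)
    (v : V) : Prop :=
  ∃ k x e, k ≤ k₂ ∧ Chain R k x e ∧ x 0 = v ∧ (Tg k v (x k) ∨ (k₁ ≤ k ∧ ∃ k' x' e', k' ≤ k ∧
    Chain R k' x' e' ∧ Cl v (x' 0) ∧ Cl (x' k') (x k) ∧ ∀ t ≤ k, ∀ t' ≤ k', x t ≠ x' t'))

/-- the walk of the edge meets the walk of a non adjacent raw edge -/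
def Cross (st : V → Fin 4 → Option V) (β : V → Lab n L m) (e : V × Fin L) (y : V) : Prop :=
  ∃ e' y' s s' z, Raw st β e' y' ∧ e'.1 ≠ e.1 ∧ e'.1 ≠ y ∧ y' ≠ e.1 ∧ y' ≠ y ∧ s ≤ m ∧ s' ≤ m ∧
    run st e.1 ((wd β e).take s) = some z ∧ run st e'.1 ((wd β e').take s') = some z

/-- surviving edges -/
def Surv (st : V → Fin 4 → Option V) (β : V → Lab n L m) (Tg : ℕ → V → V → Prop)
    (Cl : V → V → Prop) (k₁ k₂ : ℕ) (e : V × Fin L) (y : V) : Prop :=
  Raw st β e y ∧ ¬ Cyc (Raw st β) k₂ e.1 ∧ ¬ Bad (Raw st β) Tg Cl k₁ k₂ e.1 ∧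
    ¬ Bad (Raw st β) Tg Cl k₁ k₂ y ∧ ¬ Cross st β e y

open Classical in
/-- uniform probability -/
noncomputable def pr {Ω : Type} [Fintype Ω] (P : Ω → Prop) : ℝ :=
  ((Finset.univ.filter P).card : ℝ) / Fintype.card Ω

/-- the labels at the points of `U` are independent and uniform -/
def Indep {Ω : Type} [Fintype Ω] (lab : Ω → V → Lab n L m) (U : V → Prop) : Prop :=
  ∀ (ι κ : Type) [Fintype ι] [Fintype κ] (c : ι → V) (s : κ → V × Fin L)
    (w : κ → Fin m → Fin 4), Function.Injective c → Function.Injective s → (∀ a, U (c a)) →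
    (∀ b, U (s b).1) →
    pr (fun ω => (∀ a, Cen (lab ω) (c a)) ∧ ∀ b, (lab ω (s b).1).2 (s b).2 = w b) =
      (1 / (n : ℝ)) ^ Fintype.card ι * (1 / (4 : ℝ) ^ m) ^ Fintype.card κ

end Defs

open Classical in
/-- the expected number of surviving edges with source `x` is at least `2 / n` -/
def CntStmt (n L m : ℕ) (η : ℝ) : Prop :=
  ∀ (V Ω : Type) [Fintype Ω] [Nonempty Ω] (lab : Ω → V → Lab n L m)
    (st : V → Fin 4 → Option V) (Tg : ℕ → V → V → Prop) (Cl : V → V → Prop)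
    (k₁ k₂ l r B : ℕ) (N : ℕ → ℕ) (ρ : V → ℕ) (x : V),
    (∀ y z i, st y i = some z → st z (i + 2) = some y) →
    (∀ y z, ∀ k ≤ k₂, ρ y ≤ m * l → (Finset.univ.filter fun w : Fin (k * m) → Fin 4 =>
      run st y (List.ofFn w) = some z).card ^ 2 ≤ 15 ^ (k * m)) →
    ρ x = 0 → (∀ y i z, st y i = some z → ρ z ≤ ρ y + l) → (∀ y z, Cl y z → ρ z ≤ ρ y + r) →
    Indep lab (fun y => ρ y ≤ (k₂ + 2) * (m * l) + r) →
    (∀ y, ∃ T : Finset V, T.card ≤ B ∧ ∀ z, Cl y z → z ∈ T) →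
    (∀ k y, ∃ T : Finset V, T.card ≤ N k ∧ ∀ z, Tg k y z → z ∈ T) →
    (∀ k, (N k : ℝ) ≤ η * 12 ^ k) → (B : ℝ) ^ 2 ≤ η * 2 ^ k₁ → 1 ≤ k₂ →
    (∀ w : Fin m → Fin 4, (run st x (List.ofFn w)).isSome) →
    2 / (n : ℝ) ≤ ∑ i : Fin L, pr fun ω => ∃ y, Surv st (lab ω) Tg Cl k₁ k₂ (x, i) y

end Pool.Agent.MP_735563_an.H2.Cnt
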