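import Pool.Agent.MP_735563_an.H20.CDef

set_option autoImplicit false

/-! Uniform probability, runs, skeletons of chains. -/

namespace Pool.Agent.MP_735563_an.H2.Cnt

open Finset

section Pr

variable {Ω : Type} [Fintype Ω]

theorem pr_nonneg (P : Ω → Prop) : 0 ≤ pr P := by unfold pr; positivity

theorem pr_mono {P Q : Ω → Prop} (h : ∀ ω, P ω → Q ω) : pr P ≤ pr Q := by
  classical
  unfold pr
  refine div_le_div_of_nonneg_right ?_ (by positivity)
  exact_mod_cast card_le_card fun ω hω => by
    simp only [mem_filter, mem_univ, true_and] at hω ⊢; exact h ω hω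

theorem pr_union {ι : Type} (J : Finset ι) {P : Ω → Prop} (F : ι → Ω → Prop) (a : ι → ℝ)
    (h : ∀ ω, P ω → ∃ j ∈ J, F j ω) (hF : ∀ j ∈ J, pr (F j) ≤ a j) : pr P ≤ ∑ j ∈ J, a j := by
  classical
  refine le_trans ?_ (sum_le_sum hF)
  unfold pr
  rw [← sum_div]
  refine div_le_div_of_nonneg_right ?_ (by positivity)
  have h1 : (univ.filter P) ⊆ J.biUnion fun j => univ.filter (F j) := by
    intro ω hω
    simp only [mem_filter, mem_univ, true_and, mem_biUnion] at hω ⊢
    exact h ω hω
  have h2 := (card_le_card h1).trans card_biUnion_le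
  exact_mod_cast h2

theorem pr_union_const {ι : Type} (J : Finset ι) {P : Ω → Prop} (F : ι → Ω → Prop) {a : ℝ}
    (h : ∀ ω, P ω → ∃ j ∈ J, F j ω) (hF : ∀ j ∈ J, pr (F j) ≤ a) : pr P ≤ J.card * a := by
  have := pr_union J F (fun _ => a) h hF
  simpa using this

theorem pr_or (P Q : Ω → Prop) : pr (fun ω => P ω ∨ Q ω) ≤ pr P + pr Q := by
  have := pr_union (univ : Finset Bool) (P := fun ω => P ω ∨ Q ω)
    (fun b ω => if b then P ω else Q ω) (fun b => if b then pr P else pr Q)
    (fun ω h => h.elim (fun h => ⟨true, mem_univ _, h⟩) fun h => ⟨false, mem_univ _, h⟩)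
    (fun b _ => by cases b <;> simp)
  simpa using this

theorem pr_of_ex {P : Ω → Prop} {a : ℝ} (ha : 0 ≤ a) (h : ∀ ω, P ω → pr P ≤ a) : pr P ≤ a := by
  classical
  by_cases hP : ∃ ω, P ω
  · obtain ⟨ω, hω⟩ := hP
    exact h ω hω
  · have : pr P = 0 := by
      unfold pr
      rw [filter_eq_empty_iff.2 fun ω _ hω => hP ⟨ω, hω⟩]
      simp
    linarith

theorem pr_disj {ι : Type} (J : Finset ι) {P : Ω → Prop} (F : ι → Ω → Prop)
    (h : ∀ j ∈ J, ∀ ω, F j ω → P ω) (hd : ∀ j ∈ J, ∀ j' ∈ J, ∀ ω, F j ω → F j' ω → j = j') :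
    ∑ j ∈ J, pr (F j) ≤ pr P := by
  classical
  unfold pr
  rw [← sum_div]
  refine div_le_div_of_nonneg_right ?_ (by positivity)
  have h1 : (J.biUnion fun j => univ.filter (F j)) ⊆ univ.filter P := by
    intro ω hω
    simp only [mem_filter, mem_univ, true_and, mem_biUnion] at hω ⊢
    obtain ⟨j, hj, h2⟩ := hω
    exact h j hj ω h2
  have h2 := card_le_card h1
  rw [card_biUnion] at h2
  · exact_mod_cast h2
  · intro j hj j' hj' hne
    refine disjoint_left.2 fun ω h3 h4 => hne ?_
    simp only [mem_filter, mem_univ, true_and] at h3 h4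
    exact hd j hj j' hj' ω h3 h4

end Pr

section Run

variable {V : Type} {st : V → Fin 4 → Option V}

theorem run_append (x : V) (a b : List (Fin 4)) :
    run st x (a ++ b) = (run st x a).bind fun y => run st y b := by
  induction a generalizing x with
  | nil => simp [run]
  | cons i a ih =>
    simp only [List.cons_append, run]
    cases st x i with
    | none => rfl
    | some y => simp [ih]

/-- the reversed word -/
def rl (w : List (Fin 4)) : List (Fin 4) := (w.map fun i => i + 2).reverse

theorem run_rl (hs : ∀ y z i, st y i = some z → st z (i + 2) = some y) {x y : V}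
    {w : List (Fin 4)} (h : run st x w = some y) : run st y (rl w) = some x := by
  induction w generalizing x with
  | nil => simp only [run, Option.some.injEq] at h; subst h; rfl
  | cons i w ih =>
    simp only [run] at h
    cases h1 : st x i with
    | none => rw [h1] at h; simp at h
    | some z =>
      rw [h1] at h
      have h2 := ih (x := z) h
      have : rl (i :: w) = rl w ++ [i + 2] := by simp [rl]
      rw [this, run_append, h2]
      simp [run, hs _ _ _ h1]

theorem run_back (hs : ∀ y z i, st y i = some z → st z (i + 2) = some y) {x x' z : V}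
    {w : List (Fin 4)} (h : run st x w = some z) (h' : run st x' w = some z) : x = x' := by
  have h1 := run_rl hs h
  rw [run_rl hs h'] at h1
  exact (Option.some.inj h1).symm

theorem run_ht {ρ : V → ℕ} {l : ℕ} (hρ : ∀ y i z, st y i = some z → ρ z ≤ ρ y + l) {x y : V}
    {w : List (Fin 4)} (h : run st x w = some y) : ρ y ≤ ρ x + w.length * l := by
  induction w generalizing x with
  | nil => simp only [run, Option.some.injEq] at h; subst h; simp
  | cons i w ih =>
    simp only [run] at h
    cases h1 : st x i with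
    | none => rw [h1] at h; simp at h
    | some z =>
      rw [h1] at h
      have h2 := ih (x := z) h
      have h3 := hρ _ _ _ h1
      rw [List.length_cons, Nat.succ_mul]
      omega

theorem run_flat (W : ℕ → List (Fin 4)) (x : ℕ → V) (k : ℕ)
    (h : ∀ t < k, run st (x t) (W t) = some (x (t + 1))) :
    run st (x 0) (List.ofFn fun t : Fin k => W t).flatten = some (x k) := by
  induction k with
  | zero => simp [run]
  | succ k ih =>
    rw [List.ofFn_succ_last, List.flatten_append, run_append]
    simp only [Fin.val_castSucc]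
    rw [ih fun t ht => h t (by omega)]
    simpa using h k (by omega)

variable {m : ℕ}

/-- the reversed word as a function -/
def rv (w : Fin m → Fin 4) : Fin m → Fin 4 := fun j => w j.rev + 2

theorem rv_rv (w : Fin m → Fin 4) : rv (rv w) = w := by
  funext j
  simp only [rv, Fin.rev_rev, add_assoc]
  have : (2 : Fin 4) + 2 = 0 := rfl
  rw [this, add_zero]

theorem ofFn_rv (w : Fin m → Fin 4) : List.ofFn (rv w) = rl (List.ofFn w) := by
  apply List.ext_getElem
  · simp [rl]
  · intro i h1 h2
    simp only [List.length_ofFn] at h1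
    simp only [rl, List.getElem_ofFn, List.getElem_reverse, List.getElem_map, rv,
      List.length_map, List.length_ofFn]
    congr 2
    apply Fin.ext
    simp only [Fin.val_rev]
    omega

end Run

section Sk

variable {V : Type} {n L m : ℕ} {st : V → Fin 4 → Option V}

/-- combinatorial data of a chain -/
abbrev Dt (L m k : ℕ) : Type := Fin k → Bool × Fin L × (Fin m → Fin 4)

/-- positions of the data -/
def Sk (st : V → Fin 4 → Option V) {k : ℕ} (D : Dt L m k) (x : ℕ → V) : Prop :=
  ∀ t : Fin k, run st (x t) (List.ofFn (D t).2.2) = some (x (t + 1))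

/-- slots of the data -/
def slot {k : ℕ} (D : Dt L m k) (x : ℕ → V) (t : Fin k) : V × Fin L :=
  (if (D t).1 then x t else x (t + 1), (D t).2.1)

/-- stored words -/
def sto {k : ℕ} (D : Dt L m k) (t : Fin k) : Fin m → Fin 4 :=
  if (D t).1 then (D t).2.2 else rv (D t).2.2

/-- the cylinder event -/
def Ev (β : V → Lab n L m) {k : ℕ} (D : Dt L m k) (x : ℕ → V) : Prop :=
  (∀ t : Fin k, Cen β (x t)) ∧ ∀ t : Fin k, (β (slot D x t).1).2 (slot D x t).2 = sto D t

/-- distinctness -/
def Gd {k : ℕ} (D : Dt L m k) (x : ℕ → V) : Prop :=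
  Function.Injective (fun t : Fin k => x t) ∧ Function.Injective (slot D x)

theorem Sk.uniq {k : ℕ} {D : Dt L m k} {x x' : ℕ → V} (h : Sk st D x) (h' : Sk st D x')
    (h0 : x 0 = x' 0) : ∀ t ≤ k, x t = x' t := by
  intro t
  induction t with
  | zero => intro _; exact h0
  | succ t ih =>
    intro ht
    have h1 := h ⟨t, by omega⟩
    have h2 := h' ⟨t, by omega⟩
    simp only at h1 h2
    rw [ih (by omega), h2] at h1
    exact (Option.some.inj h1).symm

theorem slot_congr {k : ℕ} {D : Dt L m k} {x x' : ℕ → V} (h : ∀ t ≤ k, x t = x' t) :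
    slot D x = slot D x' := by
  funext t
  simp only [slot, h t t.2.le, h (t + 1) t.2]

theorem Ev.congr {β : V → Lab n L m} {k : ℕ} {D : Dt L m k} {x x' : ℕ → V}
    (h : ∀ t ≤ k, x t = x' t) (he : Ev β D x) : Ev β D x' :=
  ⟨fun t => h t t.2.le ▸ he.1 t, fun t => slot_congr (D := D) h ▸ he.2 t⟩

theorem Sk.ht {ρ : V → ℕ} {l : ℕ} (hρ : ∀ y i z, st y i = some z → ρ z ≤ ρ y + l) {k : ℕ}
    {D : Dt L m k} {x : ℕ → V} (h : Sk st D x) : ∀ t ≤ k, ρ (x t) ≤ ρ (x 0) + t * (m * l) := by
  intro t
  induction t with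
  | zero => intro _; simp
  | succ t ih =>
    intro ht
    have h1 := run_ht hρ (h ⟨t, by omega⟩)
    have h2 := ih (by omega)
    simp only [List.length_ofFn] at h1
    rw [Nat.succ_mul]
    omega

theorem slot_fst {k : ℕ} (D : Dt L m k) (x : ℕ → V) (t : Fin k) :
    ∃ s ≤ k, (slot D x t).1 = x s := by
  unfold slot
  split_ifs
  · exact ⟨t, t.2.le, rfl⟩
  · exact ⟨t + 1, t.2, rfl⟩

theorem chain_data (hs : ∀ y z i, st y i = some z → st z (i + 2) = some y) {β : V → Lab n L m}
    {k : ℕ} {x : ℕ → V} {e : ℕ → V × Fin L} (h : Chain (Raw st β) k x e) :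
    ∃ D : Dt L m k, Sk st D x ∧ Gd D x ∧ Ev β D x := by
  have key : ∀ t : Fin k, ∃ q : Bool × Fin L × (Fin m → Fin 4),
      run st (x t) (List.ofFn q.2.2) = some (x (t + 1)) ∧
      ((if q.1 then x t else x (t + 1), q.2.1) : V × Fin L) = e t ∧ Cen β (x t) ∧
      (β (e t).1).2 (e t).2 = if q.1 then q.2.2 else rv q.2.2 := by
    intro t
    rcases h.1 t t.2 with ⟨h1, h2⟩ | ⟨h1, h2⟩
    · refine ⟨(true, (e t).2, (β (e t).1).2 (e t).2), ?_, ?_, h1 ▸ h2.1, rfl⟩
      · rw [← h1]; exact h2.2.2.2
      · simp [← h1]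
    · refine ⟨(false, (e t).2, rv ((β (e t).1).2 (e t).2)), ?_, ?_, h2.2.1, ?_⟩
      · rw [← h1, ofFn_rv]; exact run_rl hs h2.2.2.2
      · simp [← h1]
      · simp [rv_rv]
  choose D h1 h2 h3 h4 using key
  have h5 : ∀ t, slot D x t = e t := h2
  refine ⟨D, h1, ⟨fun t t' ht => Fin.ext (h.2.1 t t.2 t' t'.2 ht), fun t t' ht => ?_⟩, h3,
    fun t => by rw [h5]; exact h4 t⟩
  rw [h5, h5] at ht
  exact Fin.ext (h.2.2 t t.2 t' t'.2 ht)

open Classical in
theorem card_sk (k : ℕ) (v z : V) {Λ : ℝ}
    (hM : ((univ.filter fun w : Fin (k * m) → Fin 4 => run st v (List.ofFn w) = some z).card : ℝ)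
      ≤ Λ ^ k) :
    ((univ.filter fun D : Dt L m k => ∃ x, Sk st D x ∧ x 0 = v ∧ x k = z).card : ℝ) ≤
      (2 * L * Λ) ^ k := by
  let f : (Fin k → Bool × Fin L) × (Fin (k * m) → Fin 4) → Dt L m k := fun q t =>
    ((q.1 t).1, (q.1 t).2, fun j => q.2 (finProdFinEquiv (t, j)))
  have h1 : (univ.filter fun D : Dt L m k => ∃ x, Sk st D x ∧ x 0 = v ∧ x k = z) ⊆
      ((univ : Finset (Fin k → Bool × Fin L)) ×ˢ (univ.filter fun w : Fin (k * m) → Fin 4 =>
        run st v (List.ofFn w) = some z)).image f := by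
    intro D hD
    simp only [mem_filter, mem_univ, true_and] at hD
    obtain ⟨x, hx, rfl, rfl⟩ := hD
    refine mem_image.2 ⟨(fun t => ((D t).1, (D t).2.1), fun j =>
      (D (finProdFinEquiv.symm j).1).2.2 (finProdFinEquiv.symm j).2), ?_, ?_⟩
    · simp only [mem_product, mem_univ, mem_filter, true_and]
      have h2 := run_flat (st := st) (fun t => if ht : t < k then List.ofFn (D ⟨t, ht⟩).2.2 else [])
        x k (fun t ht => by simpa [ht] using hx ⟨t, ht⟩)
      rw [List.ofFn_mul]
      convert h2 using 4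
      funext t
      simp only [t.2, dite_true, Fin.eta]
      congr 1
      funext j
      have : finProdFinEquiv.symm (⟨t * m + j, by
          calc (t : ℕ) * m + j < (t + 1) * m := by rw [Nat.succ_mul]; omega
            _ ≤ k * m := Nat.mul_le_mul_right _ t.2⟩ : Fin (k * m)) = (t, j) := by
        rw [Equiv.symm_apply_eq]
        apply Fin.ext
        simp [finProdFinEquiv, mul_comm, add_comm]
      rw [this]
    · funext t
      simp only [f, Equiv.symm_apply_apply]
  have h2 := (card_le_card h1).trans card_image_le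
  rw [card_product] at h2
  have h3 : ((univ : Finset (Fin k → Bool × Fin L)).card : ℝ) = (2 * L) ^ k := by simp
  have h4 := (Nat.cast_le (α := ℝ)).2 h2
  rw [Nat.cast_mul, h3] at h4
  rw [mul_pow]
  exact h4.trans (mul_le_mul_of_nonneg_left hM (by positivity))

end Sk

end Pool.Agent.MP_735563_an.H2.Cnt
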