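import Pool.Agent.MP_735563_an.H20.CntA

set_option autoImplicit false

/-! Probabilities of chains, pairs of chains, crossings and raw edges. -/

namespace Pool.Agent.MP_735563_an.H2.Cnt

open Finset

variable {V Ω : Type} [Fintype Ω] {n L m : ℕ} {st : V → Fin 4 → Option V}
  {lab : Ω → V → Lab n L m} {U : V → Prop}

theorem pr_ev2 (hI : Indep lab U) {k k' : ℕ} {D : Dt L m k} {D' : Dt L m k'} {x x' : ℕ → V}
    (h : Gd D x) (h' : Gd D' x') (hd : ∀ t ≤ k, ∀ t' ≤ k', x t ≠ x' t') (hU : ∀ t ≤ k, U (x t))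
    (hU' : ∀ t ≤ k', U (x' t)) : pr (fun ω => Ev (lab ω) D x ∧ Ev (lab ω) D' x') ≤
      (1 / (n : ℝ) * (1 / 4 ^ m)) ^ k * (1 / (n : ℝ) * (1 / 4 ^ m)) ^ k' := by
  have h1 := hI (Fin k ⊕ Fin k') (Fin k ⊕ Fin k') (Sum.elim (fun t => x t) fun t => x' t)
    (Sum.elim (slot D x) (slot D' x')) (Sum.elim (sto D) (sto D'))
    (h.1.sumElim h'.1 fun a b => hd a a.2.le b b.2.le)
    (h.2.sumElim h'.2 fun a b hab => by
      obtain ⟨s, hs, h2⟩ := slot_fst D x a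
      obtain ⟨s', hs', h3⟩ := slot_fst D' x' b
      exact hd s hs s' hs' (by rw [← h2, ← h3, hab]))
    (by rintro (a | a); exacts [hU a a.2.le, hU' a a.2.le])
    (by
      rintro (a | a)
      · obtain ⟨s, hs, h2⟩ := slot_fst D x a
        simpa [h2] using hU s hs
      · obtain ⟨s, hs, h2⟩ := slot_fst D' x' a
        simpa [h2] using hU' s hs)
  refine le_trans (pr_mono fun ω hω => ?_) (h1.le.trans (le_of_eq ?_))
  · constructor
    · rintro (a | a); exacts [hω.1.1 a, hω.2.1 a]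
    · rintro (a | a); exacts [hω.1.2 a, hω.2.2 a]
  · simp only [Fintype.card_sum, Fintype.card_fin]; ring

theorem pr_ev1 (hI : Indep lab U) {k : ℕ} {D : Dt L m k} {x : ℕ → V}
    (h : Gd D x) (hU : ∀ t ≤ k, U (x t)) : pr (fun ω => Ev (lab ω) D x) ≤
      (1 / (n : ℝ) * (1 / 4 ^ m)) ^ k := by
  have h1 := hI (Fin k) (Fin k) (fun t => x t) (slot D x) (sto D) h.1 h.2
    (fun a => hU a a.2.le) (fun a => by
      obtain ⟨s, hs, h2⟩ := slot_fst D x a
      simpa [h2] using hU s hs)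
  refine le_trans (pr_mono fun ω hω => hω) (h1.le.trans (le_of_eq ?_))
  simp only [Fintype.card_fin]; ring

open Classical in
theorem pr_chain (hs : ∀ y z i, st y i = some z → st z (i + 2) = some y) (hI : Indep lab U)
    {k : ℕ} {v : V} {Λ : ℝ}
    (hM : ∀ z, ((univ.filter fun w : Fin (k * m) → Fin 4 =>
      run st v (List.ofFn w) = some z).card : ℝ) ≤ Λ ^ k)
    (hU : ∀ (D : Dt L m k) x, Sk st D x → x 0 = v → ∀ t ≤ k, U (x t)) (T : Finset V) :
    pr (fun ω => ∃ x e, Chain (Raw st (lab ω)) k x e ∧ x 0 = v ∧ x k ∈ T) ≤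
      T.card * (2 * L * Λ * (1 / (n : ℝ) * (1 / 4 ^ m))) ^ k := by
  refine pr_union_const T (fun z ω => ∃ x e, Chain (Raw st (lab ω)) k x e ∧ x 0 = v ∧ x k = z)
    (fun ω ⟨x, e, h1, h2, h3⟩ => ⟨x k, h3, x, e, h1, h2, rfl⟩) fun z _ => ?_
  refine (pr_union_const (univ.filter fun D : Dt L m k => ∃ x, Sk st D x ∧ x 0 = v ∧ x k = z)
    (fun D ω => ∃ x, Sk st D x ∧ x 0 = v ∧ Gd D x ∧ Ev (lab ω) D x)
    (a := (1 / (n : ℝ) * (1 / 4 ^ m)) ^ k) ?_ ?_).trans ?_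
  · rintro ω ⟨x, e, h1, h2, h3⟩
    obtain ⟨D, h4, h5, h6⟩ := chain_data hs h1
    exact ⟨D, by simpa using ⟨x, h4, h2, h3⟩, x, h4, h2, h5, h6⟩
  · intro D _
    refine pr_of_ex (by positivity) fun ω₀ ⟨x₀, h1, h2, h3, _⟩ => ?_
    refine (pr_mono ?_).trans (pr_ev1 hI h3 (hU D x₀ h1 h2))
    rintro ω ⟨x, h4, h5, -, h6⟩
    exact h6.congr (h4.uniq h1 (h5.trans h2.symm))
  · rw [mul_pow (2 * L * Λ)]
    exact mul_le_mul_of_nonneg_right (card_sk k v z (hM z)) (by positivity)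

open Classical in
theorem pr_two (hs : ∀ y z i, st y i = some z → st z (i + 2) = some y) (hI : Indep lab U)
    {k k' B : ℕ} {v : V} {Λ : ℝ} (hΛ : 0 ≤ Λ) {Cl : V → V → Prop}
    (hM : ∀ z, ((univ.filter fun w : Fin (k * m) → Fin 4 =>
      run st v (List.ofFn w) = some z).card : ℝ) ≤ Λ ^ k)
    (hU : ∀ (D : Dt L m k) x, Sk st D x → x 0 = v → ∀ t ≤ k, U (x t))
    (hU' : ∀ (D : Dt L m k') x, Sk st D x → Cl v (x 0) → ∀ t ≤ k', U (x t))
    (hB : ∀ y, ∃ T : Finset V, T.card ≤ B ∧ ∀ z, Cl y z → z ∈ T) :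
    pr (fun ω => ∃ x e x' e', Chain (Raw st (lab ω)) k x e ∧ x 0 = v ∧
      Chain (Raw st (lab ω)) k' x' e' ∧ Cl v (x' 0) ∧ Cl (x' k') (x k) ∧
      ∀ t ≤ k, ∀ t' ≤ k', x t ≠ x' t') ≤
      (B : ℝ) ^ 2 * (2 * L * (1 / (n : ℝ))) ^ k' *
        (2 * L * Λ * (1 / (n : ℝ) * (1 / 4 ^ m))) ^ k := by
  obtain ⟨T, hT, hT1⟩ := hB v
  refine (pr_union_const (T ×ˢ (univ : Finset (Dt L m k')))
    (fun q ω => ∃ x e x', Chain (Raw st (lab ω)) k x e ∧ x 0 = v ∧ Sk st q.2 x' ∧ x' 0 = q.1 ∧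
      Cl v q.1 ∧ Gd q.2 x' ∧ Ev (lab ω) q.2 x' ∧ Cl (x' k') (x k) ∧
      ∀ t ≤ k, ∀ t' ≤ k', x t ≠ x' t')
    (a := B * ((2 * L * Λ) ^ k * ((1 / (n : ℝ) * (1 / 4 ^ m)) ^ k *
      (1 / (n : ℝ) * (1 / 4 ^ m)) ^ k'))) ?_ ?_).trans ?_
  · rintro ω ⟨x, e, x', e', h1, h2, h3, h4, h5, h6⟩
    obtain ⟨D, h7, h8, h9⟩ := chain_data hs h3
    exact ⟨(x' 0, D), by simpa using hT1 _ h4, x, e, x', h1, h2, h7, rfl, h4, h8, h9, h5, h6⟩
  · rintro ⟨v', D'⟩ -
    refine pr_of_ex (by positivity) fun ω₀ ⟨_, _, x₀', _, _, h1, h2, h3, h4, _⟩ => ?_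
    simp only at h1 h2 h3 h4
    obtain ⟨T', hT', hT2⟩ := hB (x₀' k')
    refine (pr_union_const T' (fun z ω => ∃ x e, Chain (Raw st (lab ω)) k x e ∧ x 0 = v ∧
      x k = z ∧ Ev (lab ω) D' x₀' ∧ ∀ t ≤ k, ∀ t' ≤ k', x t ≠ x₀' t')
      (a := (2 * L * Λ) ^ k * ((1 / (n : ℝ) * (1 / 4 ^ m)) ^ k *
        (1 / (n : ℝ) * (1 / 4 ^ m)) ^ k')) ?_ ?_).trans ?_
    · rintro ω ⟨x, e, x', g1, g2, g3, g4, -, -, g5, g6, g7⟩
      have hu := g3.uniq h1 (g4.trans h2.symm)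
      refine ⟨x k, hT2 _ (hu k' le_rfl ▸ g6), x, e, g1, g2, rfl, g5.congr hu,
        fun t ht t' ht' => hu t' ht' ▸ g7 t ht t' ht'⟩
    · intro z _
      refine (pr_union_const (univ.filter fun D : Dt L m k => ∃ x, Sk st D x ∧ x 0 = v ∧ x k = z)
        (fun D ω => ∃ x, Sk st D x ∧ x 0 = v ∧ Gd D x ∧ Ev (lab ω) D x ∧ Ev (lab ω) D' x₀' ∧
          ∀ t ≤ k, ∀ t' ≤ k', x t ≠ x₀' t')
        (a := (1 / (n : ℝ) * (1 / 4 ^ m)) ^ k * (1 / (n : ℝ) * (1 / 4 ^ m)) ^ k') ?_ ?_).trans ?_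
      · rintro ω ⟨x, e, g1, g2, g3, g4, g5⟩
        obtain ⟨D, g6, g7, g8⟩ := chain_data hs g1
        exact ⟨D, by simpa using ⟨x, g6, g2, g3⟩, x, g6, g2, g7, g8, g4, g5⟩
      · intro D _
        refine pr_of_ex (by positivity) fun ω₁ ⟨x₀, g1, g2, g3, _, _, g4⟩ => ?_
        refine (pr_mono ?_).trans (pr_ev2 hI g3 h4 g4 (hU D x₀ g1 g2)
          (hU' D' x₀' h1 (h2 ▸ h3)))
        rintro ω ⟨x, g5, g6, -, g7, g8, -⟩
        exact ⟨g7.congr (g5.uniq g1 (g6.trans g2.symm)), g8⟩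
      · exact mul_le_mul_of_nonneg_right (card_sk k v z (hM z)) (by positivity)
    · exact mul_le_mul_of_nonneg_right (by exact_mod_cast hT') (by positivity)
  · have h1 : ((T ×ˢ (univ : Finset (Dt L m k'))).card : ℝ) ≤ B * (2 * L * 4 ^ m) ^ k' := by
      rw [card_product, Nat.cast_mul]
      refine mul_le_mul (by exact_mod_cast hT) (le_of_eq ?_) (by positivity) (by positivity)
      simp [mul_assoc]
    refine (mul_le_mul_of_nonneg_right h1 (by positivity)).trans (le_of_eq ?_)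
    have h2 : (2 * L * 4 ^ m : ℝ) ^ k' * (1 / (n : ℝ) * (1 / 4 ^ m)) ^ k' =
        (2 * L * (1 / (n : ℝ))) ^ k' := by
      rw [← mul_pow]; congr 1; field_simp
    rw [← h2, mul_pow (2 * L * Λ)]
    ring

theorem pr_cross (hs : ∀ y z i, st y i = some z → st z (i + 2) = some y) (hI : Indep lab U)
    {ρ : V → ℕ} {l : ℕ} (hρ : ∀ y i z, st y i = some z → ρ z ≤ ρ y + l) {x : V}
    (hU : ∀ y, ρ y ≤ ρ x + 3 * (m * l) → U y) (i : Fin L) :
    pr (fun ω => ∃ y, Raw st (lab ω) (x, i) y ∧ Cross st (lab ω) (x, i) y) ≤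
      (m + 1) ^ 2 * L * (1 / (n : ℝ)) ^ 4 := by
  classical
  refine (pr_union_const (univ : Finset ((Fin m → Fin 4) × (Fin m → Fin 4) × Fin L ×
      Fin (m + 1) × Fin (m + 1)))
    (fun q ω => ∃ y x' y' z, Raw st (lab ω) (x, i) y ∧ Raw st (lab ω) (x', q.2.2.1) y' ∧
      x' ≠ x ∧ x' ≠ y ∧ y' ≠ x ∧ y' ≠ y ∧ (lab ω x).2 i = q.1 ∧ (lab ω x').2 q.2.2.1 = q.2.1 ∧
      run st x ((List.ofFn q.1).take q.2.2.2.1) = some z ∧
      run st x' ((List.ofFn q.2.1).take q.2.2.2.2) = some z)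
    (a := (1 / (n : ℝ)) ^ 4 * (1 / 4 ^ m) ^ 2) ?_ ?_).trans (le_of_eq ?_)
  · rintro ω ⟨y, h1, e', y', s, s', z, h2, h3, h4, h5, h6, h7, h8, h9, h10⟩
    exact ⟨(_, _, e'.2, ⟨s, by omega⟩, ⟨s', by omega⟩), mem_univ _, y, e'.1, y', z, h1, h2, h3,
      h4, h5, h6, rfl, rfl, h9, h10⟩
  · rintro ⟨w, w', i', s, s'⟩ -
    refine pr_of_ex (by positivity)
      fun ω₀ ⟨y, x', y', z, h1, h2, h3, h4, h5, h6, h7, h8, h9, h10⟩ => ?_
    simp only at h7 h8 h9 h10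
    have r1 : run st x (List.ofFn w) = some y := by rw [← h7]; exact h1.2.2.2
    have r2 : run st x' (List.ofFn w') = some y' := by rw [← h8]; exact h2.2.2.2
    have t1 := run_ht hρ r1
    have t2 := run_ht hρ r2
    have t3 := run_ht hρ h9
    have t4 := run_ht hρ (run_rl hs h10)
    have t5 : ((List.ofFn w).take s).length * l ≤ m * l :=
      Nat.mul_le_mul_right _ (by simp)
    have t6 : (rl ((List.ofFn w').take s')).length * l ≤ m * l :=
      Nat.mul_le_mul_right _ (by simp [rl])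
    simp only [List.length_ofFn] at t1 t2
    have n1 : y ≠ x := h1.2.2.1
    have n2 : y' ≠ x' := h2.2.2.1
    have h := hI (Fin 4) (Fin 2) ![x, y, x', y'] ![(x, i), (x', i')] ![w, w']
      (by
        intro a b hab
        fin_cases a <;> fin_cases b <;> simp_all)
      (by
        intro a b hab
        fin_cases a <;> fin_cases b <;> simp_all)
      (by intro a; fin_cases a <;> exact hU _ (by simp <;> omega))
      (by intro a; fin_cases a <;> exact hU _ (by simp <;> omega))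
    refine (pr_mono ?_).trans (h.le.trans (le_of_eq (by simp)))
    rintro ω ⟨y₁, x₁, y₁', z₁, g1, g2, -, -, -, -, g7, g8, g9, g10⟩
    simp only at g7 g8 g9 g10
    have e1 : z₁ = z := Option.some.inj (g9.symm.trans h9)
    subst e1
    have e2 : x₁ = x' := run_back hs g10 h10
    subst e2
    have q1 : run st x (List.ofFn w) = some y₁ := by rw [← g7]; exact g1.2.2.2
    have q2 : run st x₁ (List.ofFn w') = some y₁' := by rw [← g8]; exact g2.2.2.2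
    have e3 : y₁ = y := Option.some.inj (q1.symm.trans r1)
    have e4 : y₁' = y' := Option.some.inj (q2.symm.trans r2)
    subst e3 e4
    refine ⟨fun a => ?_, fun b => ?_⟩
    · fin_cases a
      exacts [g1.1, g1.2.1, g2.1, g2.2.1]
    · fin_cases b
      exacts [g7, g8]
  · simp only [card_univ, Fintype.card_prod, Fintype.card_fun, Fintype.card_fin]
    push_cast
    field_simp

open Classical in
theorem pr_raw (hI : Indep lab U) {x : V} {Λ : ℝ}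
    (hM : ((univ.filter fun w : Fin m → Fin 4 => run st x (List.ofFn w) = some x).card : ℝ) ≤ Λ)
    (hd : ∀ w : Fin m → Fin 4, (run st x (List.ofFn w)).isSome) (hx : U x)
    (hU : ∀ (w : Fin m → Fin 4) y, run st x (List.ofFn w) = some y → U y) (i : Fin L) :
    (1 - Λ / 4 ^ m) * (1 / (n : ℝ)) ^ 2 ≤ pr fun ω => ∃ y, Raw st (lab ω) (x, i) y := by
  let J := univ.filter fun w : Fin m → Fin 4 => ¬ run st x (List.ofFn w) = some x
  have hJ : (4 : ℝ) ^ m - Λ ≤ J.card := by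
    have h1 := card_filter_add_card_filter_not (s := (univ : Finset (Fin m → Fin 4)))
      fun w => run st x (List.ofFn w) = some x
    have h2 := congrArg (Nat.cast (R := ℝ)) h1
    simp only [card_univ, Fintype.card_fun, Fintype.card_fin, Nat.cast_add, Nat.cast_pow,
      Nat.cast_ofNat] at h2
    linarith
  refine le_trans ?_ (pr_disj J (fun w ω => ∃ y, Raw st (lab ω) (x, i) y ∧ (lab ω x).2 i = w)
    (fun w _ ω ⟨y, h, _⟩ => ⟨y, h⟩) fun w _ w' _ ω ⟨_, _, h⟩ ⟨_, _, h'⟩ => h.symm.trans h')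
  have key : ∀ w ∈ J, (1 / (n : ℝ)) ^ 2 * (1 / 4 ^ m) ≤
      pr fun ω => ∃ y, Raw st (lab ω) (x, i) y ∧ (lab ω x).2 i = w := by
    intro w hw
    simp only [J, mem_filter, mem_univ, true_and] at hw
    obtain ⟨y, hy⟩ := Option.isSome_iff_exists.1 (hd w)
    have hne : y ≠ x := fun h => hw (h ▸ hy)
    have h := hI (Fin 2) (Fin 1) ![x, y] ![(x, i)] ![w]
      (by
        intro a b hab
        fin_cases a <;> fin_cases b <;> simp_all)
      (Function.injective_of_subsingleton _)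
      (by intro a; fin_cases a; exacts [hx, hU w y hy])
      (by intro a; fin_cases a; exact hx)
    refine (le_of_eq (by simp)).trans (h.ge.trans (pr_mono fun ω hω => ?_))
    have h2 : (lab ω x).2 i = w := hω.2 0
    exact ⟨y, ⟨hω.1 0, hω.1 1, hne, by simpa [wd, h2] using hy⟩, h2⟩
  refine le_trans ?_ (sum_le_sum key)
  rw [sum_const, nsmul_eq_mul]
  calc (1 - Λ / 4 ^ m) * (1 / (n : ℝ)) ^ 2
      = (4 ^ m - Λ) * ((1 / (n : ℝ)) ^ 2 * (1 / 4 ^ m)) := by field_simp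
    _ ≤ _ := mul_le_mul_of_nonneg_right hJ (by positivity)

end Pool.Agent.MP_735563_an.H2.Cnt
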