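import Pool.Agent.MP_735563_an.H20.Det
import Pool.Agent.MP_735563_an.H20.CDef2

set_option autoImplicit false

/-! Deterministic consequences of the final removal rules. -/

namespace Pool.Agent.MP_735563_an.H2.Cnt

section Gen

variable {V : Type} {L : ℕ} {R S : V × Fin L → V → Prop} {k : ℕ} {x : ℕ → V} {e : ℕ → V × Fin L}

theorem Path.mono (hS : ∀ e y, S e y → R e y) (h : Path S k x e) : Path R k x e :=
  ⟨fun t ht => (h.1 t ht).mono hS, h.2⟩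

theorem Path.sub {a b : ℕ} (h : Path R k x e) (hab : a + b ≤ k) :
    Path R b (fun t => x (a + t)) fun t => e (a + t) :=
  ⟨fun t ht => h.1 (a + t) (by omega),
    fun t ht t' ht' h1 => by have := h.2 (a + t) (by omega) (a + t') (by omega) h1; omega⟩

theorem Path.rev (h : Path R k x e) : Path R k (fun t => x (k - t)) fun t => e (k - (t + 1)) :=
  ⟨fun t ht => by
    have := (h.1 (k - (t + 1)) (by omega)).symm
    rwa [show k - (t + 1) + 1 = k - t by omega] at this,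
    fun t ht t' ht' h1 => by have := h.2 (k - t) (by omega) (k - t') (by omega) h1; omega⟩

end Gen

variable {V : Type} {n L m : ℕ} {st : V → Fin 4 → Option V} {β : V → Lab n L m}
  {Tg : ℕ → V → V → Prop} {Cl : V → V → Prop} {k₁ k₂ : ℕ}

theorem Path.toChain {k : ℕ} {x : ℕ → V} {e : ℕ → V × Fin L} (h : Path (Raw st β) k x e) :
    Chain (Raw st β) k x e := chain_of_inj Raw.fn h.1 h.2

theorem Fe.raw (e : V × Fin L) (y : V) (h : Fe st β Tg Cl k₁ k₂ e y) : Raw st β e y := h.1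

theorem Fe.fn (e : V × Fin L) (y y' : V) (h : Fe st β Tg Cl k₁ k₂ e y)
    (h' : Fe st β Tg Cl k₁ k₂ e y') : y = y' := Raw.fn e y y' h.1 h'.1

theorem Fe.irr (e : V × Fin L) (y : V) (h : Fe st β Tg Cl k₁ k₂ e y) : y ≠ e.1 := h.1.2.2.1

theorem Step.not_bad2 {v v' : V} {e : V × Fin L} (h : Step (Fe st β Tg Cl k₁ k₂) v e v') :
    ¬ Bad2 (Raw st β) Tg Cl k₁ k₂ v := by
  rcases h with ⟨rfl, h⟩ | ⟨-, h⟩
  exacts [h.2.2.1, h.2.2.2.1]

theorem Step.not_big {v v' : V} {e : V × Fin L} (h : Step (Fe st β Tg Cl k₁ k₂) v e v') :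
    ¬ Big (Raw st β) v := by
  rcases h with ⟨rfl, h⟩ | ⟨-, h⟩
  exacts [h.2.2.2.2.2.1, h.2.2.2.2.2.2]

/-- short non backtracking walks along final edges are paths -/
theorem fe_path {k : ℕ} (hk : k ≤ k₂) {x : ℕ → V} {e : ℕ → V × Fin L}
    (h : ∀ t < k, Step (Fe st β Tg Cl k₁ k₂) (x t) (e t) (x (t + 1)))
    (hn : ∀ t, t + 2 ≤ k → x (t + 2) ≠ x t) : Path (Fe st β Tg Cl k₁ k₂) k x e :=
  ⟨h, nb_inj Raw.fn Raw.irr Fe.raw (fun _ _ h => h.2.1) hk h fun t ht =>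
    nb_edge Raw.fn Raw.irr ((h t (by omega)).mono Fe.raw) ((h (t + 1) ht).mono Fe.raw) (hn t ht)⟩

/-- a short path of final edges does not end in a target set -/
theorem fe_not_tg {k : ℕ} (h1 : 1 ≤ k) (hk : k ≤ k₂) {x : ℕ → V} {e : ℕ → V × Fin L}
    (h : Path (Fe st β Tg Cl k₁ k₂) k x e) : ¬ Tg k (x 0) (x k) := fun ht =>
  (h.1 0 h1).not_bad2 ⟨k, x, e, h1, hk, h.mono Fe.raw, rfl, Or.inl ht⟩

/-- two close paths of final edges, the first long and not shorter than the second, meet -/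
theorem fe_meet {k k' : ℕ} (h1 : 1 ≤ k) (h2 : k₁ ≤ k) (hk : k ≤ k₂) (hk' : k' ≤ k)
    {x x' : ℕ → V} {e e' : ℕ → V × Fin L} (h : Path (Fe st β Tg Cl k₁ k₂) k x e)
    (h' : Path (Fe st β Tg Cl k₁ k₂) k' x' e') (c1 : Cl (x 0) (x' 0)) (c2 : Cl (x' k') (x k)) :
    ∃ t ≤ k, ∃ t' ≤ k', x t = x' t' := by
  by_contra hc
  push Not at hc
  exact (h.1 0 h1).not_bad2 ⟨k, x, e, h1, hk, h.mono Fe.raw, rfl,
    Or.inr ⟨h2, k', x', e', hk', h'.mono Fe.raw, c1, c2, hc⟩⟩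

/-- bounded degree -/
theorem fe_deg (v : V) : ∃ T : Finset V, T.card ≤ 10000 ∧
    ∀ y, y ∈ T ↔ ∃ e, Step (Fe st β Tg Cl k₁ k₂) v e y := by
  classical
  by_cases h : ∃ e y, Step (Fe st β Tg Cl k₁ k₂) v e y
  · obtain ⟨e₀, y₀, h⟩ := h
    have key : ∀ T : Finset V, (∀ y ∈ T, ∃ e, Step (Fe st β Tg Cl k₁ k₂) v e y) →
        T.card ≤ 10000 := fun T hT => not_lt.1 fun h1 => h.not_big
      ⟨T, h1, fun y hy => (hT y hy).imp fun _ g => g.mono Fe.raw⟩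
    have hf : {y | ∃ e, Step (Fe st β Tg Cl k₁ k₂) v e y}.Finite := by
      by_contra hi
      obtain ⟨T, h1, h2⟩ := Set.Infinite.exists_subset_card_eq hi 10001
      have := key T fun y hy => h1 hy
      omega
    exact ⟨hf.toFinset, key _ fun y hy => hf.mem_toFinset.1 hy, fun y => hf.mem_toFinset⟩
  · exact ⟨∅, by simp, fun y => ⟨fun g => absurd g (Finset.notMem_empty y),
      fun ⟨e, g⟩ => absurd ⟨e, y, g⟩ h⟩⟩

variable {V' : Type} {st' : V' → Fin 4 → Option V'} {β' : V' → Lab n L m}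
  {Tg' : ℕ → V' → V' → Prop} {Cl' : V' → V' → Prop} {ρ : V → ℕ} {l r R : ℕ} {f : V → V'}

theorem Emb.step' (h : Emb st β Tg Cl st' β' Tg' Cl' ρ l r R f) {v y : V} {e : V × Fin L}
    (hv : ρ v + 2 * (m * l) ≤ R) (hs : Step (Raw st β) v e y) :
    Step (Raw st' β') (f v) (f e.1, e.2) (f y) := by
  have := hs.ht h.sym h.hst
  rcases hs with ⟨h3, h4⟩ | ⟨h3, h4⟩
  exacts [Or.inl ⟨congrArg f h3, h.raw (by rw [h3]; omega) h4⟩,
    Or.inr ⟨congrArg f h3, h.raw (by rw [h3]; omega) h4⟩]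

theorem Emb.path (h : Emb st β Tg Cl st' β' Tg' Cl' ρ l r R f) {k : ℕ} {x : ℕ → V}
    {e : ℕ → V × Fin L} (hc : Path (Raw st β) k x e) (hk : ρ (x 0) + (k + 1) * (m * l) ≤ R) :
    Path (Raw st' β') k (fun t => f (x t)) fun t => (f (e t).1, (e t).2) := by
  have h1 : ∀ t ≤ k, ρ (x t) ≤ R := by
    intro t ht
    have := hc.toChain.ht h.sym h.hst t ht
    have := Nat.mul_le_mul_right (m * l) (show t ≤ k + 1 by omega)
    omega
  exact ⟨(h.chain hc.toChain hk).1, fun t ht t' ht' h3 =>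
    hc.2 t ht t' ht' (h.inj _ _ (h1 t ht) (h1 t' ht') h3)⟩

theorem Emb.bad2 (h : Emb st β Tg Cl st' β' Tg' Cl' ρ l r R f) {v : V}
    (hv : ρ v + (k₂ + 1) * (m * l) + r ≤ R) (hc : Bad2 (Raw st β) Tg Cl k₁ k₂ v) :
    Bad2 (Raw st' β') Tg' Cl' k₁ k₂ (f v) := by
  obtain ⟨k, x, e, h0, h1, h2, rfl, h3⟩ := hc
  have a1 := Nat.mul_le_mul_right (m * l) (Nat.add_le_add_right h1 1)
  have a2 : ∀ t ≤ k, ρ (x t) ≤ R := by
    intro t ht
    have := h2.toChain.ht h.sym h.hst t ht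
    have := Nat.mul_le_mul_right (m * l) (show t ≤ k₂ + 1 by omega)
    omega
  refine ⟨k, _, _, h0, h1, h.path h2 (by omega), rfl, ?_⟩
  rcases h3 with h3 | ⟨h3, k', x', e', h4, h5, h6, h7, h8⟩
  · exact Or.inl (h.tg _ _ _ (a2 0 (by omega)) (a2 k le_rfl) h3)
  · have a3 := h.hcl _ _ h6
    have a4 := Nat.mul_le_mul_right (m * l) (Nat.add_le_add_right (h4.trans h1) 1)
    have a5 : ∀ t ≤ k', ρ (x' t) ≤ R := by
      intro t ht
      have := h5.toChain.ht h.sym h.hst t ht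
      have := Nat.mul_le_mul_right (m * l) (show t ≤ k₂ + 1 by omega)
      omega
    exact Or.inr ⟨h3, k', _, _, h4, h.path h5 (by omega),
      h.cl _ _ (a2 0 (by omega)) (a5 0 (by omega)) h6, h.cl _ _ (a5 k' le_rfl) (a2 k le_rfl) h7,
      fun t ht t' ht' h9 => h8 t ht t' ht' (h.inj _ _ (a2 t ht) (a5 t' ht') h9)⟩

theorem Emb.big (h : Emb st β Tg Cl st' β' Tg' Cl' ρ l r R f) {v : V}
    (hv : ρ v + 2 * (m * l) ≤ R) (hc : Big (Raw st β) v) : Big (Raw st' β') (f v) := by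
  classical
  obtain ⟨T, h1, h2⟩ := hc
  have h3 : ∀ y ∈ T, ρ y ≤ R := fun y hy => by
    obtain ⟨e, he⟩ := h2 y hy
    have := he.ht h.sym h.hst
    omega
  refine ⟨T.image f, ?_, fun y hy => ?_⟩
  · rwa [Finset.card_image_of_injOn fun y hy z hz => h.inj y z (h3 y hy) (h3 z hz)]
  · obtain ⟨z, hz, rfl⟩ := Finset.mem_image.1 hy
    obtain ⟨e, he⟩ := h2 z hz
    exact ⟨_, h.step' hv he⟩

/-- a raw edge whose image is final is final -/
theorem Emb.fe (h : Emb st β Tg Cl st' β' Tg' Cl' ρ l r R f) {e : V × Fin L} {y : V}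
    (he : ρ e.1 + (k₂ + 3) * (m * l) + r ≤ R) (hr : Raw st β e y)
    (hs : Fe st' β' Tg' Cl' k₁ k₂ (f e.1, e.2) (f y)) : Fe st β Tg Cl k₁ k₂ e y := by
  have t0 : ρ y ≤ ρ e.1 + m * l := by simpa [wd] using run_ht h.hst hr.2.2.2
  have t1 : (k₂ + 3) * (m * l) = (k₂ + 1) * (m * l) + 2 * (m * l) := by ring
  have t2 : m * l ≤ (k₂ + 1) * (m * l) := Nat.le_mul_of_pos_left _ (by omega)
  exact ⟨hr, fun g => hs.2.1 (h.cyc (by omega) g), fun g => hs.2.2.1 (h.bad2 (by omega) g),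
    fun g => hs.2.2.2.1 (h.bad2 (by omega) g), fun g => hs.2.2.2.2.1 (h.cross (by omega) hr g),
    fun g => hs.2.2.2.2.2.1 (h.big (by omega) g), fun g => hs.2.2.2.2.2.2 (h.big (by omega) g)⟩

end Pool.Agent.MP_735563_an.H2.Cnt
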