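import Pool.Agent.MP_735563_an.H20.Cnt
import Pool.Agent.MP_735563_an.H20.Det
import Pool.Agent.MP_735563_an.H20.CDef2

set_option autoImplicit false

/-! Probabilities of chains together with a side event. -/

namespace Pool.Agent.MP_735563_an.H2.Cnt

open Finset

variable {V Ω : Type} [Fintype Ω] {n L m : ℕ} {st : V → Fin 4 → Option V}
  {lab : Ω → V → Lab n L m} {U : V → Prop} {A : Ω → Prop} {Q : V × Fin L → Prop} {γ : ℝ}

/-- independence from a side event for slots in `Q` -/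
def IX (lab : Ω → V → Lab n L m) (U : V → Prop) (A : Ω → Prop) (Q : V × Fin L → Prop) (γ : ℝ) :
    Prop :=
  0 ≤ γ ∧ ∀ (ι κ : Type) [Fintype ι] [Fintype κ] (c : ι → V) (s : κ → V × Fin L)
    (w : κ → Fin m → Fin 4), Function.Injective c → Function.Injective s → (∀ a, U (c a)) →
    (∀ b, U (s b).1) → (∀ b, Q (s b)) →
    pr (fun ω => A ω ∧ (∀ a, Cen (lab ω) (c a)) ∧ ∀ b, (lab ω (s b).1).2 (s b).2 = w b) ≤
      γ * ((1 / (n : ℝ)) ^ Fintype.card ι * (1 / (4 : ℝ) ^ m) ^ Fintype.card κ)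

theorem ix_triv (hI : Indep lab U) : IX lab U (fun _ => True) (fun _ => True) 1 :=
  ⟨zero_le_one, fun ι κ _ _ c s w h1 h2 h3 h4 _ => by
    rw [one_mul, ← hI ι κ c s w h1 h2 h3 h4]; exact pr_mono fun _ h => h.2⟩

theorem ix_slot (hI : Indep lab U) {e₀ : V × Fin L} (he : U e₀.1) (w₀ : Fin m → Fin 4) :
    IX lab U (fun ω => (lab ω e₀.1).2 e₀.2 = w₀) (· ≠ e₀) (1 / 4 ^ m) := by
  refine ⟨by positivity, fun ι κ _ _ c s w h1 h2 h3 h4 h5 => ?_⟩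
  have h := hI ι (κ ⊕ Unit) c (Sum.elim s fun _ => e₀) (Sum.elim w fun _ => w₀) h1
    (h2.sumElim (Function.injective_of_subsingleton _) fun a _ => h5 a) h3
    (by rintro (a | a); exacts [h4 a, he])
  refine le_trans (pr_mono fun ω hω => ?_) (h.le.trans (le_of_eq ?_))
  · refine ⟨hω.2.1, ?_⟩
    rintro (a | a); exacts [hω.2.2 a, hω.1]
  · simp only [Fintype.card_sum, Fintype.card_unit]; ring

theorem pr_markov {ι : Type} (J : Finset ι) {P : Ω → Prop} (F : ι → Ω → Prop) (N : ℕ) {a : ℝ}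
    (h : ∀ ω, P ω → ∃ T ⊆ J, N ≤ T.card ∧ ∀ j ∈ T, F j ω) (hF : ∀ j ∈ J, pr (F j) ≤ a) :
    N * pr P ≤ J.card * a := by
  classical
  have h1 : N * (univ.filter P).card ≤ ∑ j ∈ J, (univ.filter (F j)).card := by
    calc N * (univ.filter P).card = ∑ _ω ∈ univ.filter P, N := by simp [mul_comm]
      _ ≤ ∑ ω ∈ univ.filter P, (J.filter fun j => F j ω).card := by
        refine sum_le_sum fun ω hω => ?_
        obtain ⟨T, h2, h3, h4⟩ := h ω (mem_filter.1 hω).2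
        exact h3.trans (card_le_card fun j hj => mem_filter.2 ⟨h2 hj, h4 j hj⟩)
      _ ≤ ∑ ω, (J.filter fun j => F j ω).card := sum_le_sum_of_subset (subset_univ _)
      _ = _ := by simp only [card_filter]; exact sum_comm
  have h2 : N * pr P ≤ ∑ j ∈ J, pr (F j) := by
    unfold pr
    rw [← sum_div, ← mul_div_assoc]
    refine div_le_div_of_nonneg_right ?_ (by positivity)
    exact_mod_cast h1
  refine h2.trans ((sum_le_sum hF).trans (by simp))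

theorem pr_ev2x (hI : IX lab U A Q γ) {k k' : ℕ} {D : Dt L m k} {D' : Dt L m k'} {x x' : ℕ → V}
    (h : Gd D x) (h' : Gd D' x') (hd : ∀ t ≤ k, ∀ t' ≤ k', x t ≠ x' t') (hU : ∀ t ≤ k, U (x t))
    (hU' : ∀ t ≤ k', U (x' t)) (hQ : ∀ t, Q (slot D x t)) (hQ' : ∀ t, Q (slot D' x' t)) :
    pr (fun ω => A ω ∧ Ev (lab ω) D x ∧ Ev (lab ω) D' x') ≤
      γ * ((1 / (n : ℝ) * (1 / 4 ^ m)) ^ k * (1 / (n : ℝ) * (1 / 4 ^ m)) ^ k') := by
  have h1 := hI.2 (Fin k ⊕ Fin k') (Fin k ⊕ Fin k') (Sum.elim (fun t => x t) fun t => x' t)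
    (Sum.elim (slot D x) (slot D' x')) (Sum.elim (sto D) (sto D'))
    (h.1.sumElim h'.1 fun a b => hd a a.2.le b b.2.le)
    (h.2.sumElim h'.2 fun a b hab => by
      obtain ⟨s, hs, h2⟩ := slot_fst D x a
      obtain ⟨s', hs', h3⟩ := slot_fst D' x' b
      exact hd s hs s' hs' (by rw [← h2, ← h3, hab]))
    (by rintro (a | a); exacts [hU a a.2.le, hU' a a.2.le])
    (by
      rintro (a | a)
      · obtain ⟨s, hs, h2⟩ := slot_fst D x a
        simpa [h2] using hU s hs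
      · obtain ⟨s, hs, h2⟩ := slot_fst D' x' a
        simpa [h2] using hU' s hs)
    (by rintro (a | a); exacts [hQ a, hQ' a])
  refine le_trans (pr_mono fun ω hω => ?_) (h1.trans (le_of_eq ?_))
  · refine ⟨hω.1, ?_, ?_⟩
    · rintro (a | a); exacts [hω.2.1.1 a, hω.2.2.1 a]
    · rintro (a | a); exacts [hω.2.1.2 a, hω.2.2.2 a]
  · simp only [Fintype.card_sum, Fintype.card_fin]; ring

theorem pr_ev1x (hI : IX lab U A Q γ) {k : ℕ} {D : Dt L m k} {x : ℕ → V}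
    (h : Gd D x) (hU : ∀ t ≤ k, U (x t)) (hQ : ∀ t, Q (slot D x t)) :
    pr (fun ω => A ω ∧ Ev (lab ω) D x) ≤ γ * (1 / (n : ℝ) * (1 / 4 ^ m)) ^ k := by
  have h1 := hI.2 (Fin k) (Fin k) (fun t => x t) (slot D x) (sto D) h.1 h.2
    (fun a => hU a a.2.le) (fun a => by
      obtain ⟨s, hs, h2⟩ := slot_fst D x a
      simpa [h2] using hU s hs) hQ
  refine le_trans (pr_mono fun ω hω => hω) (h1.trans (le_of_eq ?_))
  simp only [Fintype.card_fin]; ring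

omit [Fintype Ω] in
theorem chain_data' (hs : ∀ y z i, st y i = some z → st z (i + 2) = some y) {β : V → Lab n L m}
    {k : ℕ} {x : ℕ → V} {e : ℕ → V × Fin L} (h : Chain (Raw st β) k x e)
    (hQ : ∀ t < k, Q (e t)) :
    ∃ D : Dt L m k, Sk st D x ∧ Gd D x ∧ Ev β D x ∧ ∀ t, Q (slot D x t) := by
  have key : ∀ t : Fin k, ∃ q : Bool × Fin L × (Fin m → Fin 4),
      run st (x t) (List.ofFn q.2.2) = some (x (t + 1)) ∧
      ((if q.1 then x t else x (t + 1), q.2.1) : V × Fin L) = e t ∧ Cen β (x t) ∧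
      (β (e t).1).2 (e t).2 = if q.1 then q.2.2 else rv q.2.2 := by
    intro t
    rcases h.1 t t.2 with ⟨h1, h2⟩ | ⟨h1, h2⟩
    · refine ⟨(true, (e t).2, (β (e t).1).2 (e t).2), ?_, ?_, h1 ▸ h2.1, rfl⟩
      · rw [← h1]; exact h2.2.2.2
      · simp [← h1]
    · refine ⟨(false, (e t).2, rv ((β (e t).1).2 (e t).2)), ?_, ?_, h2.2.1, ?_⟩
      · rw [← h1, ofFn_rv]; exact run_rl hs h2.2.2.2
      · simp [← h1]
      · simp [rv_rv]
  choose D h1 h2 h3 h4 using key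
  have h5 : ∀ t, slot D x t = e t := h2
  refine ⟨D, h1, ⟨fun t t' ht => Fin.ext (h.2.1 t t.2 t' t'.2 ht), fun t t' ht => ?_⟩,
    ⟨h3, fun t => by rw [h5]; exact h4 t⟩, fun t => by rw [h5]; exact hQ t t.2⟩
  rw [h5, h5] at ht
  exact Fin.ext (h.2.2 t t.2 t' t'.2 ht)

open Classical in
theorem pr_chainx (hs : ∀ y z i, st y i = some z → st z (i + 2) = some y) (hI : IX lab U A Q γ)
    {k : ℕ} {v : V} {Λ : ℝ}
    (hM : ∀ z, ((univ.filter fun w : Fin (k * m) → Fin 4 =>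
      run st v (List.ofFn w) = some z).card : ℝ) ≤ Λ ^ k)
    (hU : ∀ (D : Dt L m k) x, Sk st D x → x 0 = v → ∀ t ≤ k, U (x t)) (T : Finset V) :
    pr (fun ω => A ω ∧ ∃ x e, Chain (Raw st (lab ω)) k x e ∧ (∀ t < k, Q (e t)) ∧ x 0 = v ∧
      x k ∈ T) ≤ T.card * (γ * (2 * L * Λ * (1 / (n : ℝ) * (1 / 4 ^ m))) ^ k) := by
  have hγ := hI.1
  refine pr_union_const T (fun z ω => A ω ∧ ∃ x e, Chain (Raw st (lab ω)) k x e ∧
      (∀ t < k, Q (e t)) ∧ x 0 = v ∧ x k = z)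
    (fun ω ⟨h0, x, e, h1, h2, h3, h4⟩ => ⟨x k, h4, h0, x, e, h1, h2, h3, rfl⟩) fun z _ => ?_
  refine (pr_union_const (univ.filter fun D : Dt L m k => ∃ x, Sk st D x ∧ x 0 = v ∧ x k = z)
    (fun D ω => A ω ∧ ∃ x, Sk st D x ∧ x 0 = v ∧ Gd D x ∧ Ev (lab ω) D x ∧ ∀ t, Q (slot D x t))
    (a := γ * (1 / (n : ℝ) * (1 / 4 ^ m)) ^ k) ?_ ?_).trans ?_
  · rintro ω ⟨h0, x, e, h1, hq, h2, h3⟩
    obtain ⟨D, h4, h5, h6, h7⟩ := chain_data' hs h1 hq
    exact ⟨D, by simpa using ⟨x, h4, h2, h3⟩, h0, x, h4, h2, h5, h6, h7⟩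
  · intro D _
    refine pr_of_ex (by positivity) fun ω₀ ⟨_, x₀, h1, h2, h3, _, hq⟩ => ?_
    refine (pr_mono ?_).trans (pr_ev1x hI h3 (hU D x₀ h1 h2) hq)
    rintro ω ⟨h0, x, h4, h5, -, h6, -⟩
    exact ⟨h0, h6.congr (h4.uniq h1 (h5.trans h2.symm))⟩
  · rw [mul_pow (2 * L * Λ), mul_left_comm γ]
    exact mul_le_mul_of_nonneg_right (card_sk k v z (hM z)) (by positivity)

open Classical in
theorem pr_twox (hs : ∀ y z i, st y i = some z → st z (i + 2) = some y) (hI : IX lab U A Q γ)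
    {k k' B : ℕ} {v u : V} {Λ : ℝ} (hΛ : 0 ≤ Λ) {Cl : V → V → Prop}
    (hM : ∀ z, ((univ.filter fun w : Fin (k * m) → Fin 4 =>
      run st v (List.ofFn w) = some z).card : ℝ) ≤ Λ ^ k)
    (hU : ∀ (D : Dt L m k) x, Sk st D x → x 0 = v → ∀ t ≤ k, U (x t))
    (hU' : ∀ (D : Dt L m k') x, Sk st D x → Cl u (x 0) → ∀ t ≤ k', U (x t))
    (hB : ∀ y, ∃ T : Finset V, T.card ≤ B ∧ ∀ z, Cl y z → z ∈ T) :
    pr (fun ω => A ω ∧ ∃ x e x' e', Chain (Raw st (lab ω)) k x e ∧ (∀ t < k, Q (e t)) ∧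
      x 0 = v ∧ Chain (Raw st (lab ω)) k' x' e' ∧ (∀ t < k', Q (e' t)) ∧ Cl u (x' 0) ∧
      Cl (x' k') (x k) ∧ ∀ t ≤ k, ∀ t' ≤ k', x t ≠ x' t') ≤
      γ * ((B : ℝ) ^ 2 * (2 * L * (1 / (n : ℝ))) ^ k' *
        (2 * L * Λ * (1 / (n : ℝ) * (1 / 4 ^ m))) ^ k) := by
  have hγ := hI.1
  obtain ⟨T, hT, hT1⟩ := hB u
  refine (pr_union_const (T ×ˢ (univ : Finset (Dt L m k')))
    (fun q ω => A ω ∧ ∃ x e x', Chain (Raw st (lab ω)) k x e ∧ (∀ t < k, Q (e t)) ∧ x 0 = v ∧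
      Sk st q.2 x' ∧ x' 0 = q.1 ∧ Cl u q.1 ∧ Gd q.2 x' ∧ (∀ t, Q (slot q.2 x' t)) ∧
      Ev (lab ω) q.2 x' ∧ Cl (x' k') (x k) ∧ ∀ t ≤ k, ∀ t' ≤ k', x t ≠ x' t')
    (a := B * ((2 * L * Λ) ^ k * (γ * ((1 / (n : ℝ) * (1 / 4 ^ m)) ^ k *
      (1 / (n : ℝ) * (1 / 4 ^ m)) ^ k')))) ?_ ?_).trans ?_
  · rintro ω ⟨h0, x, e, x', e', h1, hq, h2, h3, hq', h4, h5, h6⟩
    obtain ⟨D, h7, h8, h9, h10⟩ := chain_data' hs h3 hq'
    exact ⟨(x' 0, D), by simpa using hT1 _ h4, h0, x, e, x', h1, hq, h2, h7, rfl, h4, h8, h10,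
      h9, h5, h6⟩
  · rintro ⟨v', D'⟩ -
    refine pr_of_ex (by positivity)
      fun ω₀ ⟨_, _, _, x₀', _, _, _, h1, h2, h3, h4, hq', _⟩ => ?_
    simp only at h1 h2 h3 h4 hq'
    obtain ⟨T', hT', hT2⟩ := hB (x₀' k')
    refine (pr_union_const T' (fun z ω => A ω ∧ ∃ x e, Chain (Raw st (lab ω)) k x e ∧
      (∀ t < k, Q (e t)) ∧ x 0 = v ∧ x k = z ∧ Ev (lab ω) D' x₀' ∧
      ∀ t ≤ k, ∀ t' ≤ k', x t ≠ x₀' t')
      (a := (2 * L * Λ) ^ k * (γ * ((1 / (n : ℝ) * (1 / 4 ^ m)) ^ k *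
        (1 / (n : ℝ) * (1 / 4 ^ m)) ^ k'))) ?_ ?_).trans ?_
    · rintro ω ⟨g0, x, e, x', g1, gq, g2, g3, g4, -, -, -, g5, g6, g7⟩
      have hu := g3.uniq h1 (g4.trans h2.symm)
      refine ⟨x k, hT2 _ (hu k' le_rfl ▸ g6), g0, x, e, g1, gq, g2, rfl, g5.congr hu,
        fun t ht t' ht' => hu t' ht' ▸ g7 t ht t' ht'⟩
    · intro z _
      refine (pr_union_const (univ.filter fun D : Dt L m k => ∃ x, Sk st D x ∧ x 0 = v ∧ x k = z)
        (fun D ω => A ω ∧ ∃ x, Sk st D x ∧ x 0 = v ∧ Gd D x ∧ (∀ t, Q (slot D x t)) ∧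
          Ev (lab ω) D x ∧ Ev (lab ω) D' x₀' ∧ ∀ t ≤ k, ∀ t' ≤ k', x t ≠ x₀' t')
        (a := γ * ((1 / (n : ℝ) * (1 / 4 ^ m)) ^ k * (1 / (n : ℝ) * (1 / 4 ^ m)) ^ k'))
        ?_ ?_).trans ?_
      · rintro ω ⟨g0, x, e, g1, gq, g2, g3, g4, g5⟩
        obtain ⟨D, g6, g7, g8, g9⟩ := chain_data' hs g1 gq
        exact ⟨D, by simpa using ⟨x, g6, g2, g3⟩, g0, x, g6, g2, g7, g9, g8, g4, g5⟩
      · intro D _
        refine pr_of_ex (by positivity) fun ω₁ ⟨_, x₀, g1, g2, g3, gq, _, _, g4⟩ => ?_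
        refine (pr_mono ?_).trans (pr_ev2x hI g3 h4 g4 (hU D x₀ g1 g2)
          (hU' D' x₀' h1 (h2 ▸ h3)) gq hq')
        rintro ω ⟨g0, x, g5, g6, -, -, g7, g8, -⟩
        exact ⟨g0, g7.congr (g5.uniq g1 (g6.trans g2.symm)), g8⟩
      · exact mul_le_mul_of_nonneg_right (card_sk k v z (hM z)) (by positivity)
    · exact mul_le_mul_of_nonneg_right (by exact_mod_cast hT') (by positivity)
  · have h1 : ((T ×ˢ (univ : Finset (Dt L m k'))).card : ℝ) ≤ B * (2 * L * 4 ^ m) ^ k' := by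
      rw [card_product, Nat.cast_mul]
      refine mul_le_mul (by exact_mod_cast hT) (le_of_eq ?_) (by positivity) (by positivity)
      simp [mul_assoc]
    refine (mul_le_mul_of_nonneg_right h1 (by positivity)).trans (le_of_eq ?_)
    have h2 : (2 * L * 4 ^ m : ℝ) ^ k' * (1 / (n : ℝ) * (1 / 4 ^ m)) ^ k' =
        (2 * L * (1 / (n : ℝ))) ^ k' := by
      rw [← mul_pow]; congr 1; field_simp
    rw [← h2, mul_pow (2 * L * Λ)]
    ring

theorem term_le {c θ τ : ℝ} (hc : 1 ≤ c) (h0 : 0 ≤ θ) (h1 : c ^ 2 * θ ≤ τ) (h2 : τ ≤ 1 / 2)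
    {j s : ℕ} (hj : 1 ≤ j) (hs : s ≤ 1) : c ^ (j + s) * θ ^ j ≤ 2 * τ * (1 / 2) ^ j := by
  obtain ⟨i, rfl⟩ := Nat.exists_eq_add_of_le' hj
  have h3 : c * θ ≤ 1 / 2 := by nlinarith [mul_nonneg (by linarith : (0 : ℝ) ≤ c) h0]
  calc c ^ (i + 1 + s) * θ ^ (i + 1) ≤ c ^ (i + 2) * θ ^ (i + 1) :=
        mul_le_mul_of_nonneg_right (pow_le_pow_right₀ hc (by omega)) (by positivity)
    _ = (c ^ 2 * θ) * (c * θ) ^ i := by ring
    _ ≤ τ * (1 / 2) ^ i := mul_le_mul h1 (pow_le_pow_left₀ (by positivity) h3 i) (by positivity)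
        (le_trans (by positivity) h1)
    _ = _ := by ring

open Classical in
theorem pr_badx (hs : ∀ y z i, st y i = some z → st z (i + 2) = some y) (hI : IX lab U A Q γ)
    {k₁ k₂ B b s : ℕ} {v u : V} {Λ θ τ : ℝ} (hΛ : 0 ≤ Λ) (hs1 : s ≤ 1)
    {Tg : ℕ → V → V → Prop} {Cl : V → V → Prop}
    (hM : ∀ k ≤ k₂, ∀ z, ((univ.filter fun w : Fin (k * m) → Fin 4 =>
      run st v (List.ofFn w) = some z).card : ℝ) ≤ Λ ^ k)
    (hU : ∀ k ≤ k₂, ∀ (D : Dt L m k) x, Sk st D x → x 0 = v → ∀ t ≤ k, U (x t))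
    (hU' : ∀ k ≤ k₂, ∀ (D : Dt L m k) x, Sk st D x → Cl u (x 0) → ∀ t ≤ k, U (x t))
    (hB : ∀ y, ∃ T : Finset V, T.card ≤ B ∧ ∀ z, Cl y z → z ∈ T)
    (hN : ∀ k, ∃ T : Finset V, T.card ≤ b ^ k ∧ ∀ z, Tg k u z → z ∈ T) (hB' : B ^ 2 ≤ 2 ^ k₁)
    (hθ : θ = 2 * L * Λ * (1 / (n : ℝ) * (1 / 4 ^ m))) (h1 : ((b : ℝ) + 24) ^ 2 * θ ≤ τ)
    (h2 : τ ≤ 1 / 2) (h6 : 2 * L * (1 / (n : ℝ)) ≤ 6) :
    pr (fun ω => A ω ∧ ∃ j x e, 1 ≤ j ∧ j + s ≤ k₂ ∧ Chain (Raw st (lab ω)) j x e ∧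
      (∀ t < j, Q (e t)) ∧ x 0 = v ∧ (Tg (j + s) u (x j) ∨ (k₁ ≤ j + s ∧ ∃ k' x' e', k' ≤ j + s ∧
        Chain (Raw st (lab ω)) k' x' e' ∧ (∀ t < k', Q (e' t)) ∧ Cl u (x' 0) ∧ Cl (x' k') (x j) ∧
        ∀ t ≤ j, ∀ t' ≤ k', x t ≠ x' t'))) ≤ γ * (8 * τ) := by
  have hγ := hI.1
  have h0 : 0 ≤ θ := by rw [hθ]; positivity
  have hτ : 0 ≤ τ := le_trans (by positivity) h1
  have hb : (0 : ℝ) ≤ b := by positivity
  refine (pr_union (range (k₂ + 1)) (fun j ω => (1 ≤ j ∧ j + s ≤ k₂) ∧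
    ((A ω ∧ ∃ x e, Chain (Raw st (lab ω)) j x e ∧ (∀ t < j, Q (e t)) ∧ x 0 = v ∧
      Tg (j + s) u (x j)) ∨
    (k₁ ≤ j + s ∧ ∃ k' ∈ range (j + s + 1), A ω ∧ ∃ x e x' e', Chain (Raw st (lab ω)) j x e ∧
      (∀ t < j, Q (e t)) ∧ x 0 = v ∧ Chain (Raw st (lab ω)) k' x' e' ∧ (∀ t < k', Q (e' t)) ∧
      Cl u (x' 0) ∧ Cl (x' k') (x j) ∧ ∀ t ≤ j, ∀ t' ≤ k', x t ≠ x' t')))
    (fun j => γ * (4 * τ) * (1 / 2) ^ j) ?_ ?_).trans ?_
  · rintro ω ⟨g0, j, x, e, g1, g2, g3, g4, g5, g6 | ⟨g6, k', x', e', g7, g8⟩⟩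
    · exact ⟨j, mem_range.2 (by omega), ⟨g1, g2⟩, Or.inl ⟨g0, x, e, g3, g4, g5, g6⟩⟩
    · exact ⟨j, mem_range.2 (by omega), ⟨g1, g2⟩, Or.inr ⟨g6, k', mem_range.2 (by omega), g0,
        x, e, x', e', g3, g4, g5, g8⟩⟩
  · intro j _
    refine pr_of_ex (by positivity) fun _ ⟨⟨hj1, hj2⟩, _⟩ => ?_
    have hj3 : j ≤ k₂ := by omega
    have e0 := term_le (c := b + 24) (by linarith) h0 h1 h2 hj1 hs1
    have e1 : (b : ℝ) ^ (j + s) * θ ^ j ≤ 2 * τ * (1 / 2) ^ j :=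
      le_trans (by gcongr; linarith) e0
    have e2 : (24 : ℝ) ^ (j + s) * θ ^ j ≤ 2 * τ * (1 / 2) ^ j :=
      le_trans (by gcongr; linarith) e0
    refine (pr_mono fun ω hω => hω.2).trans ((pr_or _ _).trans ?_)
    have p1 : pr (fun ω => A ω ∧ ∃ x e, Chain (Raw st (lab ω)) j x e ∧ (∀ t < j, Q (e t)) ∧
        x 0 = v ∧ Tg (j + s) u (x j)) ≤ γ * (2 * τ * (1 / 2) ^ j) := by
      obtain ⟨T, hT, hT1⟩ := hN (j + s)
      refine (pr_mono fun ω ⟨g0, x, e, g1, g2, g3, g4⟩ => ⟨g0, x, e, g1, g2, g3, hT1 _ g4⟩).trans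
        ((pr_chainx hs hI (hM j hj3) (hU j hj3) T).trans ?_)
      rw [← hθ, mul_left_comm]
      refine mul_le_mul_of_nonneg_left (le_trans ?_ e1) hγ
      exact mul_le_mul_of_nonneg_right (by exact_mod_cast hT) (by positivity)
    have p2 : pr (fun ω => k₁ ≤ j + s ∧ ∃ k' ∈ range (j + s + 1), A ω ∧ ∃ x e x' e',
        Chain (Raw st (lab ω)) j x e ∧ (∀ t < j, Q (e t)) ∧ x 0 = v ∧
        Chain (Raw st (lab ω)) k' x' e' ∧ (∀ t < k', Q (e' t)) ∧ Cl u (x' 0) ∧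
        Cl (x' k') (x j) ∧ ∀ t ≤ j, ∀ t' ≤ k', x t ≠ x' t') ≤ γ * (2 * τ * (1 / 2) ^ j) := by
      refine pr_of_ex (by positivity) fun _ ⟨g1, _⟩ => ?_
      refine (pr_union_const (range (j + s + 1)) _ (a := γ * ((B : ℝ) ^ 2 * 6 ^ (j + s) * θ ^ j))
        (fun ω hω => hω.2) fun k' hk2 => ?_).trans ?_
      · have hk3 : k' ≤ j + s := by simpa [Nat.lt_succ_iff] using hk2
        refine (pr_twox hs hI hΛ (hM j hj3) (hU j hj3) (hU' k' (hk3.trans hj2)) hB).trans ?_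
        rw [← hθ]
        refine mul_le_mul_of_nonneg_left (mul_le_mul_of_nonneg_right
          (mul_le_mul_of_nonneg_left ?_ (by positivity)) (by positivity)) hγ
        exact (pow_le_pow_left₀ (by positivity) h6 k').trans (pow_le_pow_right₀ (by norm_num) hk3)
      · have g2 : ((range (j + s + 1)).card : ℝ) ≤ 2 ^ (j + s) := by
          rw [card_range]; exact_mod_cast Nat.lt_two_pow_self
        have g3 : (B : ℝ) ^ 2 ≤ 2 ^ (j + s) := by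
          exact_mod_cast hB'.trans (Nat.pow_le_pow_right (by norm_num) g1)
        calc ((range (j + s + 1)).card : ℝ) * (γ * ((B : ℝ) ^ 2 * 6 ^ (j + s) * θ ^ j))
            ≤ 2 ^ (j + s) * (γ * (2 ^ (j + s) * 6 ^ (j + s) * θ ^ j)) := by gcongr
          _ = γ * (24 ^ (j + s) * θ ^ j) := by
            rw [show (24 : ℝ) = 2 * (2 * 6) by norm_num, mul_pow, mul_pow]; ring
          _ ≤ _ := mul_le_mul_of_nonneg_left e2 hγ
    linarith
  · have := sum_half_le (k₂ + 1) (a := γ * (4 * τ)) (by positivity) _ fun _ => le_rfl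
    linarith

theorem pr_big (hs : ∀ y z i, st y i = some z → st z (i + 2) = some y) (hI : Indep lab U)
    {x y u : V} (hxy : y ≠ x) (hu : u = x ∨ u = y) (hx : U x) (hy : U y)
    (hU : ∀ (w : Fin m → Fin 4) z, run st u (List.ofFn w) = some z → U z) (i : Fin L)
    (w : Fin m → Fin 4) :
    9999 * pr (fun ω => (lab ω x).2 i = w ∧ Raw st (lab ω) (x, i) y ∧ Big (Raw st (lab ω)) u) ≤
      2 * L * (1 / (n : ℝ)) ^ 3 * (1 / 4 ^ m) := by
  classical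
  have h := pr_markov (univ : Finset (Bool × Fin L × (Fin m → Fin 4)))
    (P := fun ω => (lab ω x).2 i = w ∧ Raw st (lab ω) (x, i) y ∧ Big (Raw st (lab ω)) u)
    (fun q ω => ∃ z, run st u (List.ofFn q.2.2) = some z ∧ z ≠ x ∧ z ≠ y ∧
      ((if q.1 then u else z, q.2.1) : V × Fin L) ≠ (x, i) ∧ Cen (lab ω) x ∧ Cen (lab ω) y ∧
      Cen (lab ω) z ∧ (lab ω x).2 i = w ∧
      (lab ω (if q.1 then u else z)).2 q.2.1 = if q.1 then q.2.2 else rv q.2.2) 9999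
    (a := (1 / (n : ℝ)) ^ 3 * (1 / 4 ^ m) ^ 2) ?_ ?_
  · refine le_trans (by exact_mod_cast h) (le_of_eq ?_)
    simp only [card_univ, Fintype.card_prod, Fintype.card_fun, Fintype.card_fin,
      Fintype.card_bool]
    push_cast
    field_simp
  · rintro ω ⟨h1, h2, T, h3, h4⟩
    refine ⟨univ.filter _, subset_univ _, ?_, fun j hj => (mem_filter.1 hj).2⟩
    have h5 : (T.erase x).erase y ⊆ (univ.filter fun q : Bool × Fin L × (Fin m → Fin 4) =>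
        ∃ z, run st u (List.ofFn q.2.2) = some z ∧ z ≠ x ∧ z ≠ y ∧
        ((if q.1 then u else z, q.2.1) : V × Fin L) ≠ (x, i) ∧ Cen (lab ω) x ∧ Cen (lab ω) y ∧
        Cen (lab ω) z ∧ (lab ω x).2 i = w ∧
        (lab ω (if q.1 then u else z)).2 q.2.1 = if q.1 then q.2.2 else rv q.2.2).image
        fun q => (run st u (List.ofFn q.2.2)).getD u := by
      intro z hz
      simp only [mem_erase] at hz
      obtain ⟨e, he⟩ := h4 z hz.2.2
      have hne : e ≠ (x, i) := by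
        rintro rfl
        rcases he.ends Raw.fn (Or.inl ⟨rfl, h2⟩ : Step (Raw st (lab ω)) x (x, i) y) with g | g
        exacts [hz.1 g.2, hz.2.1 g.2]
      rcases he with ⟨g1, g2⟩ | ⟨g1, g2⟩
      · have g3 : run st u (List.ofFn ((lab ω e.1).2 e.2)) = some z := g1 ▸ g2.2.2.2
        refine mem_image.2 ⟨(true, e.2, (lab ω e.1).2 e.2), mem_filter.2 ⟨mem_univ _, z, g3,
          hz.2.1, hz.1, by simpa [← g1] using hne, h2.1, h2.2.1, g2.2.1, h1, by simp [← g1]⟩,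
          by simp [g3]⟩
      · have g3 : run st u (List.ofFn (rv ((lab ω e.1).2 e.2))) = some z := by
          rw [ofFn_rv, ← g1]; exact run_rl hs g2.2.2.2
        refine mem_image.2 ⟨(false, e.2, rv ((lab ω e.1).2 e.2)), mem_filter.2 ⟨mem_univ _, z, g3,
          hz.2.1, hz.1, by simpa [← g1] using hne, h2.1, h2.2.1, g1 ▸ g2.1, h1,
          by simp [← g1, rv_rv]⟩, by simp [g3]⟩
    have h6 := (card_le_card h5).trans card_image_le
    have h7 := pred_card_le_card_erase (s := T) (a := x)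
    have h8 := pred_card_le_card_erase (s := T.erase x) (a := y)
    omega
  · rintro q -
    refine pr_of_ex (by positivity) fun _ ⟨z, g1, g2, g3, g4, _⟩ => ?_
    have hz := hU _ _ g1
    have g := hI (Fin 3) (Fin 2) ![x, y, z] ![(x, i), (if q.1 then u else z, q.2.1)]
      ![w, if q.1 then q.2.2 else rv q.2.2]
      (by
        intro a b hab
        fin_cases a <;> fin_cases b <;> simp_all)
      (by
        intro a b hab
        fin_cases a <;> fin_cases b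
        exacts [rfl, absurd hab.symm g4, absurd hab g4, rfl])
      (by intro a; fin_cases a; exacts [hx, hy, hz])
      (by
        intro a; fin_cases a
        · exact hx
        · show U (if q.1 then u else z)
          split_ifs
          · rcases hu with rfl | rfl; exacts [hx, hy]
          · exact hz)
    refine (pr_mono ?_).trans (g.le.trans (le_of_eq (by simp)))
    rintro ω ⟨z', f1, -, -, -, f2, f3, f4, f5, f6⟩
    obtain rfl : z' = z := Option.some.inj (f1.symm.trans g1)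
    refine ⟨fun a => ?_, fun a => ?_⟩
    · fin_cases a; exacts [f2, f3, f4]
    · fin_cases a; exacts [f5, f6]

end Pool.Agent.MP_735563_an.H2.Cnt
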