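import Pool.Agent.MP_735563_an.H20.CntA
import Pool.Agent.MP_735563_an.H2.Mohar

set_option autoImplicit false

/-! The spectral bound from sparsity of the region that is reached in `N` steps. -/

namespace Pool.Agent.MP_735563_an.H2.Cnt

open Finset

open Classical in
theorem mohar_local {V : Type} {st : V → Fin 4 → Option V}
    (hs : ∀ y z i, st y i = some z → st z (i + 2) = some y) (N : ℕ) (x y : V)
    (h : ∀ S : Finset V, (∀ z ∈ S, ∃ w : List (Fin 4), w.length ≤ N ∧ run st x w = some z) →
      ((S ×ˢ (univ : Finset (Fin 4))).filter fun q => ∃ z ∈ S, st q.1 q.2 = some z).card ≤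
        3 * S.card) :
    (univ.filter fun w : Fin N → Fin 4 => run st x (List.ofFn w) = some y).card ^ 2 ≤ 15 ^ N := by
  let A : Set V := {z | ∃ w : List (Fin 4), w.length ≤ N ∧ run st x w = some z}
  have hA : A.Finite := ((List.finite_length_le (Fin 4) N).image
    fun w => (run st x w).getD x).subset fun z ⟨w, h1, h2⟩ => ⟨w, h1, by simp [h2]⟩
  have := hA.fintype
  let s₀ : A → Fin 4 → Option A := fun v i =>
    (st v i).bind fun z => if g : z ∈ A then some ⟨z, g⟩ else none
  have h0 : ∀ v i z, s₀ v i = some z ↔ st v i = some z.1 := by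
    intro v i z
    simp only [s₀, Option.bind_eq_some_iff]
    constructor
    · rintro ⟨u, h1, h2⟩
      split_ifs at h2 with g
      rw [h1, ← Option.some.inj h2]
    · exact fun h1 => ⟨z, h1, by simp⟩
  have h1 : ∀ (w u : List (Fin 4)) (v z : A), u.length + w.length ≤ N → run st x u = some v.1 →
      run st v w = some z.1 → run s₀ v w = some z := by
    intro w
    induction w with
    | nil => exact fun u v z _ _ g => congrArg some (Subtype.ext (Option.some.inj g))
    | cons i w ih =>
      intro u v z g1 g2 g3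
      obtain ⟨t, g4, g5⟩ := Option.bind_eq_some_iff.1 g3
      rw [List.length_cons] at g1
      have g6 : run st x (u ++ [i]) = some t := by simp [run_append, g2, run, g4]
      have g7 : t ∈ A := ⟨_, by simp; omega, g6⟩
      exact Option.bind_eq_some_iff.2 ⟨⟨t, g7⟩, (h0 _ _ _).2 g4,
        ih (u ++ [i]) _ z (by simp; omega) g6 g5⟩
  by_cases hy : y ∈ A
  · have hx : x ∈ A := ⟨[], by simp, rfl⟩
    refine le_trans (Nat.pow_le_pow_left (card_le_card fun w hw => ?_) 2) (mohar A s₀
      (fun a b i g => (h0 _ _ _).2 (hs _ _ _ ((h0 _ _ _).1 g))) (fun S => ?_) N ⟨x, hx⟩ ⟨y, hy⟩)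
    · simp only [mem_filter, mem_univ, true_and] at hw ⊢
      exact h1 _ [] _ _ (by simp) rfl hw
    · have g := h (S.map (Function.Embedding.subtype _)) fun z hz => by
        obtain ⟨a, -, rfl⟩ := mem_map.1 hz
        exact a.2
      rw [card_map] at g
      refine le_trans (card_le_card_of_injOn (fun q => (q.1.1, q.2)) (fun q hq => ?_)
        fun q _ q' _ hq => ?_) g
      · simp only [coe_filter, mem_product, mem_univ, and_true, Set.mem_ofPred_eq] at hq ⊢
        obtain ⟨g1, z, g2, g3⟩ := hq
        exact ⟨mem_map_of_mem _ g1, z, mem_map_of_mem _ g2, (h0 _ _ _).1 g3⟩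
      · exact Prod.ext (Subtype.ext (congrArg Prod.fst hq))
          (congrArg (fun r : V × Fin 4 => r.2) hq)
  · rw [filter_eq_empty_iff.2 fun w _ g => hy ⟨_, by simp, g⟩]
    simp

end Pool.Agent.MP_735563_an.H2.Cnt
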